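import Mathlib

set_option autoImplicit false
set_option linter.unusedSectionVars false
open MeasureTheory Metric

namespace Pool.Agent.Helper843.Haar

section UG
variable {E : Type*} [NormedAddCommGroup E] [InnerProductSpace ℝ E] [CompleteSpace E]
  [FiniteDimensional ℝ E]

theorem compactSpace_UG : CompactSpace (unitary (E →L[ℝ] E)) := by
  have : ProperSpace (E →L[ℝ] E) := FiniteDimensional.proper_real _
  have h : IsCompact ((unitary (E →L[ℝ] E) : Submonoid (E →L[ℝ] E)) : Set (E →L[ℝ] E)) := by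
    refine Metric.isCompact_of_isClosed_isBounded isClosed_unitary ?_
    refine (Metric.isBounded_closedBall (x := (0 : E →L[ℝ] E)) (r := 1)).subset ?_
    intro u hu
    rw [mem_closedBall_zero_iff]
    refine ContinuousLinearMap.opNorm_le_bound _ zero_le_one fun x => ?_
    rw [one_mul]
    exact (ContinuousLinearMap.norm_map_of_mem_unitary hu x).le
  exact isCompact_iff_compactSpace.mp h

theorem secondCountable_UG : SecondCountableTopology (unitary (E →L[ℝ] E)) := by
  have : ProperSpace (E →L[ℝ] E) := FiniteDimensional.proper_real _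
  have : SecondCountableTopology (E →L[ℝ] E) := inferInstance
  infer_instance

end UG

attribute [local instance] compactSpace_UG secondCountable_UG

/-- The Borel structure on the orthogonal group. -/
@[reducible] noncomputable def measUG (E : Type*) [NormedAddCommGroup E] [InnerProductSpace ℝ E]
    [CompleteSpace E] : MeasurableSpace (unitary (E →L[ℝ] E)) := borel _

attribute [local instance] measUG

theorem borelUG (E : Type*) [NormedAddCommGroup E] [InnerProductSpace ℝ E]
    [CompleteSpace E] : BorelSpace (unitary (E →L[ℝ] E)) := ⟨rfl⟩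

attribute [local instance] borelUG

section Int
variable {E : Type*} [NormedAddCommGroup E] [InnerProductSpace ℝ E] [CompleteSpace E]
  [FiniteDimensional ℝ E] [MeasurableSpace E] [BorelSpace E]

/-- inverse action -/
noncomputable def act (Q : unitary (E →L[ℝ] E)) (x : E) : E :=
  ((Q⁻¹ : unitary (E →L[ℝ] E)) : E →L[ℝ] E) x

theorem act_norm (Q : unitary (E →L[ℝ] E)) (x : E) : ‖act Q x‖ = ‖x‖ := Unitary.norm_map _ _

theorem act_inner (Q : unitary (E →L[ℝ] E)) (x y : E) :
    inner ℝ (act Q x) (act Q y) = inner ℝ x y := Unitary.inner_map_map _ _ _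

theorem act_continuous : Continuous (fun p : unitary (E →L[ℝ] E) × E => act p.1 p.2) := by
  unfold act
  exact (continuous_subtype_val.comp (continuous_inv.comp continuous_fst)).clm_apply continuous_snd

theorem act_mul (g Q : unitary (E →L[ℝ] E)) (x : E) :
    act (g⁻¹ * Q) x = act Q (((g : unitary (E →L[ℝ] E)) : E →L[ℝ] E) x) := by
  simp [act, mul_inv_rev]

theorem act_lin (Q : unitary (E →L[ℝ] E)) (a b : ℝ) (x y : E) :
    act Q (a • x + b • y) = a • act Q x + b • act Q y := by
  simp [act]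

theorem exists_onb2 {n : ℕ} (hn : Module.finrank ℝ E = n + 2) (a u : E) (ha : ‖a‖ = 1)
    (hu : ‖u‖ = 1) (hau : inner ℝ a u = 0) :
    ∃ b : OrthonormalBasis (Fin (n + 2)) ℝ E, b 0 = a ∧ b 1 = u := by
  have hv : Orthonormal ℝ (({0, 1} : Set (Fin (n + 2))).domRestrict
      (fun i => if i = 0 then a else u)) := by
    rw [orthonormal_iff_ite]
    rintro ⟨i, hi⟩ ⟨j, hj⟩
    simp only [Set.mem_insert_iff, Set.mem_singleton_iff] at hi hj
    rcases hi with rfl | rfl <;> rcases hj with rfl | rfl <;>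
      simp [Set.domRestrict, ha, hu, hau, real_inner_comm a u ▸ hau]
  obtain ⟨b, hb⟩ := hv.exists_orthonormalBasis_extension_of_card_eq (by simp [hn])
  exact ⟨b, by simpa using hb 0 (by simp), by simpa using hb 1 (by simp)⟩

theorem exists_onb1 {n : ℕ} (hn : Module.finrank ℝ E = n + 1) (a : E) (ha : ‖a‖ = 1) :
    ∃ b : OrthonormalBasis (Fin (n + 1)) ℝ E, b 0 = a := by
  have hv : Orthonormal ℝ (({0} : Set (Fin (n + 1))).domRestrict (fun _ => a)) := by
    rw [orthonormal_iff_ite]
    rintro ⟨i, hi⟩ ⟨j, hj⟩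
    simp only [Set.mem_singleton_iff] at hi hj
    subst hi; subst hj
    simp [Set.domRestrict, ha]
  obtain ⟨b, hb⟩ := hv.exists_orthonormalBasis_extension_of_card_eq (by simp [hn])
  exact ⟨b, by simpa using hb 0 (by simp)⟩

/-- transitivity on frames -/
theorem exists_UG {n : ℕ} (b c : OrthonormalBasis (Fin n) ℝ E) :
    ∃ g : unitary (E →L[ℝ] E), ∀ i, ((g : unitary (E →L[ℝ] E)) : E →L[ℝ] E) (b i) = c i := by
  refine ⟨Unitary.linearIsometryEquiv.symm (b.equiv c (Equiv.refl _)), fun i => ?_⟩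
  rw [Unitary.coe_symm_linearIsometryEquiv_apply]
  simp


instance finHaar : IsFiniteMeasure (Measure.haar : Measure (unitary (E →L[ℝ] E))) := inferInstance

theorem haar_shift (g : unitary (E →L[ℝ] E)) (f : unitary (E →L[ℝ] E) → ENNReal) :
    ∫⁻ Q, f (g⁻¹ * Q) ∂(Measure.haar : Measure (unitary (E →L[ℝ] E)))
      = ∫⁻ Q, f Q ∂(Measure.haar : Measure (unitary (E →L[ℝ] E))) :=
  lintegral_mul_left_eq_self f g⁻¹

theorem haar_const {n : ℕ} (hn : Module.finrank ℝ E = n + 1) (h : E → ENNReal) (x y : E)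
    (hx : ‖x‖ = 1) (hy : ‖y‖ = 1) :
    ∫⁻ Q, h (act Q x) ∂(Measure.haar : Measure (unitary (E →L[ℝ] E)))
      = ∫⁻ Q, h (act Q y) ∂(Measure.haar : Measure (unitary (E →L[ℝ] E))) := by
  obtain ⟨b, hb⟩ := exists_onb1 hn x hx
  obtain ⟨c, hc⟩ := exists_onb1 hn y hy
  obtain ⟨g, hg⟩ := exists_UG c b
  have h0 := hg 0
  rw [hb, hc] at h0
  rw [← haar_shift g (fun Q => h (act Q y))]
  simp only [act_mul, h0]

/-- averaging identity for a finite invariant measure carried by the vectors `x` for which the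
orbit average equals the one at `x0` -/
theorem haar_avg (ν : Measure E) [SFinite ν] (h : E → ENNReal) (hh : Measurable h) (x0 : E)
    (hinv : ∀ Q : unitary (E →L[ℝ] E), ∫⁻ x, h (act Q x) ∂ν = ∫⁻ x, h x ∂ν)
    (hc : ∀ᵐ x ∂ν, ∫⁻ Q, h (act Q x) ∂(Measure.haar : Measure (unitary (E →L[ℝ] E)))
      = ∫⁻ Q, h (act Q x0) ∂(Measure.haar : Measure (unitary (E →L[ℝ] E)))) :
    (∫⁻ Q, h (act Q x0) ∂(Measure.haar : Measure (unitary (E →L[ℝ] E)))) * ν Set.univ
      = (∫⁻ x, h x ∂ν) * (Measure.haar : Measure (unitary (E →L[ℝ] E))) Set.univ := by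
  have hm : Measurable (fun p : unitary (E →L[ℝ] E) × E => h (act p.1 p.2)) :=
    hh.comp act_continuous.measurable
  have e1 : ∫⁻ Q, ∫⁻ x, h (act Q x) ∂ν ∂(Measure.haar : Measure (unitary (E →L[ℝ] E)))
      = ∫⁻ x, ∫⁻ Q, h (act Q x) ∂(Measure.haar : Measure (unitary (E →L[ℝ] E))) ∂ν :=
    lintegral_lintegral_swap hm.aemeasurable
  simp only [hinv] at e1
  rw [lintegral_const, lintegral_congr_ae hc, lintegral_const] at e1
  exact e1.symm

end Int

end Pool.Agent.Helper843.Haar
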