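import Mathlib
import Pool.Agent.Helper843.Haar

set_option autoImplicit false
set_option linter.unusedSectionVars false

open MeasureTheory Set
open scoped MeasureTheory ENNReal NNReal

namespace Pool.Agent.Helper843.SphB

open Pool.Agent.Helper843.Haar

attribute [local instance] compactSpace_UG secondCountable_UG measUG borelUG

section gen

variable {E : Type*} [NormedAddCommGroup E] [InnerProductSpace ℝ E] [CompleteSpace E]
  [FiniteDimensional ℝ E] [MeasurableSpace E] [BorelSpace E]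

lemma act_eq (Q : unitary (E →L[ℝ] E)) :
    (act Q : E → E) = (Unitary.linearIsometryEquiv (Q⁻¹ : unitary (E →L[ℝ] E))) := by
  funext x
  rfl

/-- orbit average of the indicator of a set -/
noncomputable def avg (W : Set E) (x : E) : ℝ≥0∞ :=
  ∫⁻ Q, W.indicator (fun _ => (1 : ℝ≥0∞)) (act Q x) ∂(Measure.haar : Measure (unitary (E →L[ℝ] E)))

/-- total mass -/
noncomputable def tot (E : Type*) [NormedAddCommGroup E] [InnerProductSpace ℝ E] [CompleteSpace E]
    [FiniteDimensional ℝ E] : ℝ≥0∞ := (Measure.haar : Measure (unitary (E →L[ℝ] E))) univ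

lemma tot_ne_zero : tot E ≠ 0 :=
  (isOpen_univ.measure_pos (Measure.haar : Measure (unitary (E →L[ℝ] E))) univ_nonempty).ne'

lemma tot_ne_top : tot E ≠ ⊤ := measure_ne_top (Measure.haar : Measure (unitary (E →L[ℝ] E))) _

lemma avg_const {n : ℕ} (hn : Module.finrank ℝ E = n + 1) (W : Set E) (x y : E)
    (hx : ‖x‖ = 1) (hy : ‖y‖ = 1) : avg W x = avg W y :=
  haar_const hn _ x y hx hy

lemma avg_sphere {n : ℕ} (hn : Module.finrank ℝ E = n + 1) (d : ℝ) (Sp : Set E)
    (hSp : Sp = {x : E | ‖x‖ = 1}) (hfin : μH[d] Sp < ⊤)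
    (W : Set E) (hW : MeasurableSet W) (x0 : E) (hx0 : ‖x0‖ = 1) :
    avg W x0 * μH[d] Sp = μH[d] (W ∩ Sp) * tot E := by
  have hcl : MeasurableSet Sp := by
    rw [hSp]
    exact (isClosed_eq continuous_norm continuous_const).measurableSet
  have hfin : IsFiniteMeasure ((μH[d] : Measure E).restrict Sp) :=
    ⟨by rw [Measure.restrict_apply_univ]; exact hfin⟩
  have hm : Measurable (W.indicator (fun _ => (1 : ℝ≥0∞))) := measurable_const.indicator hW
  have h := haar_avg ((μH[d] : Measure E).restrict Sp) _ hm x0 ?_ ?_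
  · have h1 := lintegral_indicator_const (μ := (μH[d] : Measure E).restrict Sp) hW (1 : ℝ≥0∞)
    rw [one_mul] at h1
    rw [Measure.restrict_apply_univ, h1, Measure.restrict_apply hW] at h
    exact h
  · intro Q
    have hmp : MeasurePreserving (Unitary.linearIsometryEquiv (Q⁻¹ : unitary (E →L[ℝ] E)) : E → E) μH[d] μH[d] :=
      (Unitary.linearIsometryEquiv (Q⁻¹ : unitary (E →L[ℝ] E))).toIsometryEquiv.measurePreserving_hausdorffMeasure d
    have hpre : (Unitary.linearIsometryEquiv (Q⁻¹ : unitary (E →L[ℝ] E)) : E → E) ⁻¹' Sp = Sp := by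
      ext x
      simp [hSp]
    have := (hmp.restrict_preimage hcl).lintegral_comp hm
    rw [hpre] at this
    rw [act_eq]
    exact this
  · rw [ae_restrict_iff' hcl]
    exact Filter.Eventually.of_forall fun x hx => avg_const hn W x x0 (by rw [hSp] at hx; exact hx) hx0

/-- volume version for cones -/
lemma avg_ball {n : ℕ} (hn : Module.finrank ℝ E = n + 1)
    (W : Set E) (hW : MeasurableSet W) (hcone : ∀ (r : ℝ) (z : E), 0 < r → (r • z ∈ W ↔ z ∈ W))
    (x0 : E) (hx0 : ‖x0‖ = 1) :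
    avg W x0 * volume (Metric.ball (0 : E) 1) = volume (W ∩ Metric.ball (0 : E) 1) * tot E := by
  have hfin : IsFiniteMeasure ((volume : Measure E).restrict (Metric.ball (0 : E) 1)) :=
    ⟨by rw [Measure.restrict_apply_univ]; exact measure_ball_lt_top⟩
  have hm : Measurable (W.indicator (fun _ => (1 : ℝ≥0∞))) := measurable_const.indicator hW
  have hnt : Nontrivial E := Module.nontrivial_of_finrank_pos (R := ℝ) (by omega)
  have h := haar_avg ((volume : Measure E).restrict (Metric.ball (0 : E) 1)) _ hm x0 ?_ ?_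
  · have h1 := lintegral_indicator_const (μ := (volume : Measure E).restrict (Metric.ball (0 : E) 1)) hW (1 : ℝ≥0∞)
    rw [one_mul] at h1
    rw [Measure.restrict_apply_univ, h1, Measure.restrict_apply hW] at h
    exact h
  · intro Q
    have hmp : MeasurePreserving (Unitary.linearIsometryEquiv (Q⁻¹ : unitary (E →L[ℝ] E)) : E → E) volume volume :=
      (Unitary.linearIsometryEquiv (Q⁻¹ : unitary (E →L[ℝ] E))).measurePreserving
    have hpre : (Unitary.linearIsometryEquiv (Q⁻¹ : unitary (E →L[ℝ] E)) : E → E) ⁻¹' (Metric.ball (0 : E) 1) = Metric.ball (0 : E) 1 := by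
      ext x
      simp
    have := (hmp.restrict_preimage (Metric.isOpen_ball (x := (0 : E)) (ε := 1)).measurableSet).lintegral_comp hm
    rw [hpre] at this
    rw [act_eq]
    exact this
  · apply ae_restrict_of_ae
    have h0 : ∀ᵐ z ∂(volume : Measure E), z ≠ 0 := by
      rw [ae_iff]; simp
    filter_upwards [h0] with x hx
    have hx' : 0 < ‖x‖ := norm_pos_iff.2 hx
    have hn' : ‖(‖x‖⁻¹ • x : E)‖ = 1 := by
      rw [norm_smul, norm_inv, norm_norm, inv_mul_cancel₀ hx'.ne']
    have e : ∀ Q : unitary (E →L[ℝ] E), W.indicator (fun _ => (1 : ℝ≥0∞)) (act Q x)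
        = W.indicator (fun _ => (1 : ℝ≥0∞)) (act Q (‖x‖⁻¹ • x)) := by
      intro Q
      have h1 : act Q (‖x‖⁻¹ • x) = ‖x‖⁻¹ • act Q x := by simp [act]
      rw [h1]
      have h2 := hcone ‖x‖⁻¹ (act Q x) (inv_pos.2 hx')
      by_cases hz : act Q x ∈ W
      · rw [indicator_of_mem hz, indicator_of_mem (h2.2 hz)]
      · rw [indicator_of_notMem hz, indicator_of_notMem (fun hh => hz (h2.1 hh))]
    simp_rw [e]
    exact avg_const hn W _ x0 hn' hx0

/-- the averaging argument -/
theorem averaging {n : ℕ} (hn : Module.finrank ℝ E = n + 1) (d : ℝ) (Sp : Set E)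
    (hSp : Sp = {x : E | ‖x‖ = 1}) (hfin : μH[d] Sp < ⊤)
    (W : Set E) (hW : MeasurableSet W) {ι : Type*} [Fintype ι] (p : ι → E) (hp : ∀ i, ‖p i‖ = 1)
    (k : ℝ≥0∞) (hk : ∀ L : E ≃ₗᵢ[ℝ] E, ∑ i, W.indicator (fun _ => (1 : ℝ≥0∞)) (L (p i)) ≤ k) :
    (Fintype.card ι : ℝ≥0∞) * μH[d] (W ∩ Sp) ≤ k * μH[d] Sp := by
  have hm : Measurable (W.indicator (fun _ => (1 : ℝ≥0∞))) := measurable_const.indicator hW
  have hm2 : ∀ i, Measurable (fun Q : unitary (E →L[ℝ] E) => W.indicator (fun _ => (1 : ℝ≥0∞)) (act Q (p i))) := by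
    intro i
    have hc1 : Continuous (fun Q : unitary (E →L[ℝ] E) => ((Q, p i) : unitary (E →L[ℝ] E) × E)) :=
      continuous_id.prodMk continuous_const
    have hc := act_continuous.comp hc1
    exact hm.comp hc.measurable
  have e1 : ∑ i, avg W (p i) = ∫⁻ Q, ∑ i, W.indicator (fun _ => (1 : ℝ≥0∞)) (act Q (p i))
      ∂(Measure.haar : Measure (unitary (E →L[ℝ] E))) :=
    (lintegral_finsetSum (μ := (Measure.haar : Measure (unitary (E →L[ℝ] E)))) Finset.univ
      (f := fun i Q => W.indicator (fun _ => (1 : ℝ≥0∞)) (act Q (p i))) (fun i _ => hm2 i)).symm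
  have e2 : k * tot E = ∫⁻ _, k ∂(Measure.haar : Measure (unitary (E →L[ℝ] E))) :=
    (lintegral_const (μ := (Measure.haar : Measure (unitary (E →L[ℝ] E)))) k).symm
  have h1 : ∑ i, avg W (p i) ≤ k * tot E := by
    rw [e1, e2]
    refine lintegral_mono fun Q => ?_
    have := hk (Unitary.linearIsometryEquiv (Q⁻¹ : unitary (E →L[ℝ] E)))
    exact this
  have h2 : ∑ i, avg W (p i) * μH[d] Sp = ∑ i : ι, μH[d] (W ∩ Sp) * tot E :=
    Finset.sum_congr rfl fun i _ => avg_sphere hn d Sp hSp hfin W hW (p i) (hp i)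
  rw [← Finset.sum_mul, Finset.sum_const, nsmul_eq_mul, Finset.card_univ, ← mul_assoc] at h2
  have h3 : (Fintype.card ι : ℝ≥0∞) * μH[d] (W ∩ Sp) * tot E ≤ k * μH[d] Sp * tot E := by
    rw [← h2]
    calc (∑ i, avg W (p i)) * μH[d] Sp ≤ (k * tot E) * μH[d] Sp := by gcongr
      _ = k * μH[d] Sp * tot E := by ring
  exact (ENNReal.mul_le_mul_iff_left tot_ne_zero tot_ne_top).1 h3

theorem cone_ratio {n : ℕ} (hn : Module.finrank ℝ E = n + 1) (d : ℝ) (Sp : Set E)
    (hSp : Sp = {x : E | ‖x‖ = 1}) (hfin : μH[d] Sp < ⊤)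
    (W : Set E) (hW : MeasurableSet W) (hcone : ∀ (r : ℝ) (z : E), 0 < r → (r • z ∈ W ↔ z ∈ W))
    (x0 : E) (hx0 : ‖x0‖ = 1) :
    μH[d] (W ∩ Sp) * volume (Metric.ball (0 : E) 1) = volume (W ∩ Metric.ball (0 : E) 1) * μH[d] Sp := by
  have h1 := avg_sphere hn d Sp hSp hfin W hW x0 hx0
  have h2 := avg_ball hn W hW hcone x0 hx0
  have h3 : μH[d] (W ∩ Sp) * volume (Metric.ball (0 : E) 1) * tot E
      = volume (W ∩ Metric.ball (0 : E) 1) * μH[d] Sp * tot E := by
    calc _ = (μH[d] (W ∩ Sp) * tot E) * volume (Metric.ball (0 : E) 1) := by ring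
      _ = (avg W x0 * volume (Metric.ball (0 : E) 1)) * μH[d] Sp := by rw [← h1]; ring
      _ = _ := by rw [h2]; ring
  exact (ENNReal.mul_left_inj tot_ne_zero tot_ne_top).1 h3

end gen

end Pool.Agent.Helper843.SphB
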