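import Mathlib

set_option autoImplicit false

namespace Pool.Agent.Helper843.Kiss

open Finset

/-- the polynomial (scaled) -/
noncomputable def f (t : ℝ) : ℝ := 2040850000 * t ^ 9 - 4321800000 * t ^ 7 + 3158281125 * t ^ 5
  + 595405299 * t ^ 4 - 544975552 * t ^ 3 - 152036580 * t ^ 2

noncomputable def F (s : ℝ) : ℝ := f (-s)

/-- budget : 13 c0 - f 1 -/
noncomputable def BB : ℝ := 567521527 / 5

lemma F_eq (s : ℝ) : F s = -2040850000 * s ^ 9 + 4321800000 * s ^ 7 - 3158281125 * s ^ 5
  + 595405299 * s ^ 4 + 544975552 * s ^ 3 - 152036580 * s ^ 2 := by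
  unfold F f; ring

lemma f_one : 13 * (342010999 / 5 : ℝ) - f 1 = BB := by
  unfold f BB; norm_num

/-- evaluation of a polynomial given by its list of coefficients -/
noncomputable def ev : List ℝ → ℝ → ℝ
  | [], _ => 0
  | a :: l, y => a + y * ev l y

noncomputable def low (h : ℝ) : List ℝ → ℝ
  | [] => 0
  | a :: l => a + min 0 (h * low h l)

lemma low_le (h : ℝ) (l : List ℝ) (y : ℝ) (h0 : 0 ≤ y) (h1 : y ≤ h) : low h l ≤ ev l y := by
  induction l with
  | nil => simp [low, ev]
  | cons a l ih =>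
    simp only [low, ev]
    have : min 0 (h * low h l) ≤ y * ev l y := by
      rcases le_or_gt 0 (low h l) with hl | hl
      · exact le_trans (min_le_left _ _) (mul_nonneg h0 (hl.trans ih))
      · refine le_trans (min_le_right _ _) ?_
        have : y * low h l ≤ y * ev l y := mul_le_mul_of_nonneg_left ih h0
        nlinarith
    linarith

/-- f is nonpositive on [-5/7, 1/2] -/
lemma q_pos (t : ℝ) (h0 : -5 / 7 ≤ t) (h1 : t ≤ 1 / 2) :
    0 < 53212803 - 43394890 * t - 41400100 * t ^ 2 + 40817000 * t ^ 3 := by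
  rcases le_or_gt t 0 with h | h
  · nlinarith [mul_nonneg (neg_nonneg.2 h) (by linarith : (0:ℝ) ≤ 5/7 + t), sq_nonneg t, mul_nonneg (mul_nonneg (neg_nonneg.2 h) (neg_nonneg.2 h)) (by linarith : (0:ℝ) ≤ 5/7 + t)]
  · nlinarith [mul_nonneg h.le (by linarith : (0:ℝ) ≤ 1/2 - t), sq_nonneg t, mul_nonneg (mul_nonneg h.le h.le) (by linarith : (0:ℝ) ≤ 1/2 - t), pow_pos h 3]

lemma f_nonpos (t : ℝ) (h0 : -5 / 7 ≤ t) (h1 : t ≤ 1 / 2) : f t ≤ 0 := by
  have e : f t = -(50 * (t ^ 2 * (t + 2 / 5) ^ 2) * ((1 / 2 - t) * (t + 5 / 7)) *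
      (53212803 - 43394890 * t - 41400100 * t ^ 2 + 40817000 * t ^ 3)) := by
    unfold f; ring
  rw [e]
  have := q_pos t h0 h1
  have a1 : 0 ≤ (1 / 2 - t) * (t + 5 / 7) := mul_nonneg (by linarith) (by linarith)
  have a2 : 0 ≤ t ^ 2 * (t + 2 / 5) ^ 2 := by positivity
  have : 0 ≤ (50 * (t ^ 2 * (t + 2 / 5) ^ 2) * ((1 / 2 - t) * (t + 5 / 7)) *
      (53212803 - 43394890 * t - 41400100 * t ^ 2 + 40817000 * t ^ 3)) := by positivity
  linarith


lemma piece (a h : ℝ) (l : List ℝ) (s : ℝ) {v : ℝ} (h0 : a ≤ s) (h1 : s ≤ a + h)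
    (e : v = ev l (s - a)) (hl : 0 < low h l) : 0 < v := by
  rw [e]
  exact lt_of_lt_of_le hl (low_le h l (s - a) (by linarith) (by linarith))

lemma I2 (s : ℝ) (h0 : (5 / 7) ≤ s) (h1 : s ≤ 1) : 0 < BB - F s := by
  rcases le_total s (47 / 56) with g0 | g0
  · exact piece (5 / 7) (1 / 8) [(567521527 / 5), (-354183465075 / 2401), (-423232641480 / 343), (-134240262658 / 49), (23601691032 / 7), 23790781125, 40866000000, 33163200000, 13119750000, 2040850000] s (by linarith) (by linarith) (by simp only [ev]; unfold BB F f; ring) (by norm_num [low])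
  rcases le_total s (101 / 112) with g1 | g1
  · exact piece (47 / 56) (1 / 16) [(7266481726291187441 / 100705239040), (-1310704018141220307 / 2517630976), (-14702966902610397 / 11239424), (916480277283209 / 200704), (217319099359893 / 7168), (8552922730875 / 128), (607668140625 / 8), 47430928125, 15415706250, 2040850000] s (by linarith) (by linarith) (by simp only [ev]; unfold BB F f; ring) (by norm_num [low])
  rcases le_total s (209 / 224) with g2 | g2
  · exact piece (101 / 112) (1 / 32) [(1864123350801190873627 / 51561082388480), (-383780879576047500531 / 644513529856), (633146579695114377 / 1438646272), (194641352180478065 / 12845056), (12861528103140951 / 229376), (203590976740875 / 2048), (6299999671875 / 64), (221703103125 / 4), 16563684375, 2040850000] s (by linarith) (by linarith) (by simp only [ev]; unfold BB F f; ring) (by norm_num [low])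
  rcases le_total s (27 / 28) with g3 | g3
  · exact piece (209 / 224) (1 / 32) [(69748268299403116953017 / 3771324883271680), (-85174246046512055595987 / 164995463643136), (408993679759352281245 / 184146722816), (19068023495924037833 / 822083584), (536606556262547307 / 7340032), (3900437319850875 / 32768), (56842254459375 / 512), (954215128125 / 16), (34275346875 / 2), 2040850000] s (by linarith) (by linarith) (by simp only [ev]; unfold BB F f; ring) (by norm_num [low])
  rcases le_total s (439 / 448) with g4 | g4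
  · exact piece (27 / 28) (1 / 64) [(1044939546608053 / 196689920), (-2949784039544355 / 9834496), (426908491252671 / 87808), (105260803067849 / 3136), (20920860443649 / 224), (1128805945875 / 8), 124539778125, 63994612500, 17711662500, 2040850000] s (by linarith) (by linarith) (by simp only [ev]; unfold BB F f; ring) (by norm_num [low])
  rcases le_total s (223 / 224) with g5 | g5
  · exact piece (439 / 448) (1 / 64) [(26312910286664545098889513 / 13516428381645701120), (-5151373506767540163986451 / 42238838692642816), (155037304323959192498043 / 23570780520448), (2091734254548770787545 / 52613349376), (24635470507250111949 / 234881024), (80272814903710875 / 524288), (539283122765625 / 4096), (4238496478125 / 64), (71994628125 / 4), 2040850000] s (by linarith) (by linarith) (by simp only [ev]; unfold BB F f; ring) (by norm_num [low])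
  exact piece (223 / 224) (1 / 4) [(47651597739333233307329 / 26399274182901760), (18868022345267659509933 / 164995463643136), (1583793836143895541747 / 184146722816), (38388023395359669929 / 822083584), (861261345089683557 / 7340032), (5432765819650875 / 32768), (71182404890625 / 512), (1095908428125 / 16), (36571303125 / 2), 2040850000] s (by linarith) (by linarith) (by simp only [ev]; unfold BB F f; ring) (by norm_num [low])

lemma I3 (s : ℝ) (h0 : (5 / 7) ≤ s) (h1 : s ≤ (241 / 250)) : 0 < (-2040850000 * 9 * s ^ 8 + 4321800000 * 7 * s ^ 6 - 3158281125 * 5 * s ^ 4 + 595405299 * 4 * s ^ 3 + 544975552 * 3 * s ^ 2 - 152036580 * 2 * s) := by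
  exact piece (5 / 7) (1 / 4) [(354183465075 / 2401), (846465282960 / 343), (402720787974 / 49), (-94406764128 / 7), (-118953905625), (-245196000000), (-232142400000), (-104958000000), (-18367650000)] s (by linarith) (by linarith) (by simp only [ev]; ring) (by norm_num [low])

lemma I5 (s : ℝ) (h0 : 0 ≤ s) (h1 : s ≤ (2 / 7)) : 0 < (226000000 + 1060000000 * s - ((354183465075 / 2401) * s ^ 0 + (423232641480 / 343) * s ^ 1 + (134240262658 / 49) * s ^ 2 + (-23601691032 / 7) * s ^ 3 + (-23790781125) * s ^ 4 + (-40866000000) * s ^ 5 + (-33163200000) * s ^ 6 + (-13119750000) * s ^ 7 + (-2040850000) * s ^ 8)) := by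
  rcases le_total s (1 / 8) with g0 | g0
  · exact piece 0 (1 / 8) [(188442534925 / 2401), (-59652641480 / 343), (-134240262658 / 49), (23601691032 / 7), 23790781125, 40866000000, 33163200000, 13119750000, 2040850000] s (by linarith) (by linarith) (by simp only [ev]; ring) (by norm_num [low])
  rcases le_total s (5 / 32) with g1 | g1
  · exact piece (1 / 8) (1 / 32) [(69771408679004925 / 2517630976), (-1288559085752011 / 2809856), (337865554342521 / 200704), (5166202883399 / 224), (7428658155875 / 128), (140533071875 / 2), 45535853125, 15160600000, 2040850000] s (by linarith) (by linarith) (by simp only [ev]; ring) (by norm_num [low])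
  rcases le_total s (3 / 16) with g2 | g2
  · exact piece (5 / 32) (1 / 32) [(2604881697514785208325 / 164995463643136), (-25631053165279063085 / 92073361408), (3459128817230819427 / 822083584), (56944800752485733 / 1835008), (2283893446763375 / 32768), (20254440171875 / 256), (782528621875 / 16), 15670812500, 2040850000] s (by linarith) (by linarith) (by simp only [ev]; ring) (by norm_num [low])
  exact piece (3 / 16) (1 / 4) [(7871689047975700789 / 644513529856), (60723912149957135 / 719323136), (96983990653104767 / 12845056), (2325175274461269 / 57344), (169563190728375 / 2048), (2835648834375 / 32), (209567334375 / 4), 16181025000, 2040850000] s (by linarith) (by linarith) (by simp only [ev]; ring) (by norm_num [low])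

lemma I4 (s : ℝ) (h0 : (1677 / 1000) ≤ s) (h1 : s ≤ (17321 / 10000)) : 0 < BB - ((-12741021 / 8) * s ^ 0 + (-1418263563 / 8) * s ^ 1 + 346258006 * s ^ 2 + (3391875 / 4) * s ^ 3 + (-198468433 / 3) * s ^ 4 + (-31739250) * s ^ 5 + (30012500 / 3) * s ^ 7) := by
  exact piece (1677 / 1000) (1 / 16) [(452576435860271933943049 / 80000000000000000), (-3655638407747001228741 / 80000000000000), (-41907048042366302699 / 80000000000), (-22941310177564829 / 16000000), (-63316537976531 / 48000), (-44727673503 / 80), (-234877825 / 2), (-30012500 / 3), 0, 0] s (by linarith) (by linarith) (by simp only [ev]; unfold BB; ring) (by norm_num [low])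


lemma F_mono : MonotoneOn F (Set.Icc (5 / 7) (241 / 250)) := by
  have hd : ∀ s, HasDerivAt F (-2040850000 * 9 * s ^ 8 + 4321800000 * 7 * s ^ 6 - 3158281125 * 5 * s ^ 4 + 595405299 * 4 * s ^ 3 + 544975552 * 3 * s ^ 2 - 152036580 * 2 * s) s := by
    intro s
    have h := ((((((hasDerivAt_pow 9 s).const_mul (-2040850000)).add ((hasDerivAt_pow 7 s).const_mul 4321800000)).sub
      ((hasDerivAt_pow 5 s).const_mul 3158281125)).add ((hasDerivAt_pow 4 s).const_mul 595405299)).add
      ((hasDerivAt_pow 3 s).const_mul 544975552)).sub ((hasDerivAt_pow 2 s).const_mul 152036580)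
    have h2 : F = (((((fun y => -2040850000 * y ^ 9) + fun y => 4321800000 * y ^ 7) - fun y => 3158281125 * y ^ 5) +
        fun y => 595405299 * y ^ 4) + fun y => 544975552 * y ^ 3) - fun y => 152036580 * y ^ 2 := by
      funext x
      rw [F_eq]
      simp
    rw [h2]
    refine h.congr_deriv ?_
    norm_num
    ring
  apply monotoneOn_of_deriv_nonneg (convex_Icc _ _)
  · exact fun s _ => (hd s).continuousAt.continuousWithinAt
  · exact fun s _ => (hd s).differentiableAt.differentiableWithinAt
  · intro s hs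
    rw [interior_Icc] at hs
    rw [(hd s).deriv]
    exact (I3 s hs.1.le hs.2.le).le

lemma pair_aux (s w : ℝ) (hs : 5 / 7 ≤ s) (hsw : s ≤ w) (hw : w ^ 2 - s * w + s ^ 2 = 3 / 4) :
    F w + F s < BB := by
  obtain ⟨u, hu⟩ : ∃ u, u = w + s := ⟨_, rfl⟩
  obtain ⟨e, he⟩ : ∃ e, e = w * s := ⟨_, rfl⟩
  have he' : e = u ^ 2 / 3 - 1 / 4 := by rw [he, hu]; linarith
  have hrec : ∀ k : ℕ, w ^ (k + 2) + s ^ (k + 2) = u * (w ^ (k + 1) + s ^ (k + 1)) - e * (w ^ k + s ^ k) := by
    intro k; rw [hu, he]; ring
  have p2 : w ^ 2 + s ^ 2 = u ^ 2 / 3 + 1 / 2 := by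
    have := hrec 0
    simp only [zero_add, pow_zero, pow_one] at this
    rw [this, he', ← hu]; ring
  have p3 : w ^ 3 + s ^ 3 = u * (u ^ 2 / 3 + 1 / 2) - (u ^ 2 / 3 - 1 / 4) * u := by
    have := hrec 1
    simp only [pow_one] at this
    rw [this, ← he', ← hu, ← p2]
  have p4 : w ^ 4 + s ^ 4 = u * (3 / 4 * u) - (u ^ 2 / 3 - 1 / 4) * (u ^ 2 / 3 + 1 / 2) := by
    have := hrec 2
    rw [this, ← he', ← p2, p3]; ring
  have p5 := hrec 3
  have p6 := hrec 4
  have p7 := hrec 5
  have p8 := hrec 6
  have p9 := hrec 7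
  norm_num at p5 p6 p7 p8 p9
  rw [p4, p3, he'] at p5
  rw [p5, p4, he'] at p6
  rw [p6, p5, he'] at p7
  rw [p7, p6, he'] at p8
  rw [p8, p7, he'] at p9
  have key : F w + F s = -2040850000 * (w ^ 9 + s ^ 9) + 4321800000 * (w ^ 7 + s ^ 7) - 3158281125 * (w ^ 5 + s ^ 5)
    + 595405299 * (w ^ 4 + s ^ 4) + 544975552 * (w ^ 3 + s ^ 3) - 152036580 * (w ^ 2 + s ^ 2) := by
    rw [F_eq, F_eq]; ring
  have hu1 : 1677 / 1000 ≤ u := by
    by_contra hlt
    push Not at hlt
    nlinarith [mul_nonneg (sub_nonneg.2 hs) (sub_nonneg.2 hsw)]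
  have hu2 : u ≤ 17321 / 10000 := by
    nlinarith [sq_nonneg (w - s)]
  have := I4 u hu1 hu2
  rw [key, p9, p7, p5, p4, p3, p2]
  refine lt_of_sub_pos (lt_of_lt_of_eq this ?_)
  ring


lemma pair (s t : ℝ) (hs : 5 / 7 ≤ s) (ht : 5 / 7 ≤ t) (h : s ^ 2 + t ^ 2 - s * t ≤ 3 / 4) :
    F s + F t < BB := by
  wlog hst : s ≤ t with H
  · have := H t s ht hs (by linarith) (le_of_not_ge hst)
    linarith
  have hs2 : s ^ 2 ≤ 3 / 4 := by nlinarith
  obtain ⟨r, hr⟩ : ∃ r, r = Real.sqrt (3 - 3 * s ^ 2) := ⟨_, rfl⟩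
  have hr0 : 0 ≤ r := by rw [hr]; exact Real.sqrt_nonneg _
  have hr2 : r ^ 2 = 3 - 3 * s ^ 2 := by rw [hr]; exact Real.sq_sqrt (by linarith)
  obtain ⟨w, hw⟩ : ∃ w, w = (s + r) / 2 := ⟨_, rfl⟩
  have hw2 : w ^ 2 - s * w + s ^ 2 = 3 / 4 := by rw [hw]; nlinarith
  have htw : t ≤ w := by
    have h1 : 2 * t - s ≤ r := by
      apply le_of_sq_le_sq _ hr0
      nlinarith
    rw [hw]; linarith
  have hsw : s ≤ w := hst.trans htw
  have hw964 : w ≤ 241 / 250 := by
    by_contra hc
    push Not at hc
    nlinarith [mul_nonneg (sub_nonneg.2 hs) (sub_nonneg.2 hsw), mul_pos (sub_pos.2 hc) (sub_pos.2 hc)]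
  have hm := F_mono ⟨ht, htw.trans hw964⟩ ⟨hs.trans hsw, hw964⟩ htw
  have := pair_aux s w hs hsw hw2
  linarith

lemma F_le_quad (s : ℝ) (h0 : 5 / 7 ≤ s) (h1 : s ≤ 1) :
    F s ≤ 226000000 * (s - 5 / 7) + 1060000000 * (s - 5 / 7) ^ 2 := by
  have h := I5 (s - 5 / 7) (by linarith) (by linarith)
  have h2 := mul_nonneg (sub_nonneg.2 h0) h.le
  have e : (s - 5 / 7) * (226000000 + 1060000000 * (s - 5 / 7) - ((354183465075 / 2401) * (s - 5 / 7) ^ 0 + (423232641480 / 343) * (s - 5 / 7) ^ 1 + (134240262658 / 49) * (s - 5 / 7) ^ 2 + (-23601691032 / 7) * (s - 5 / 7) ^ 3 + (-23790781125) * (s - 5 / 7) ^ 4 + (-40866000000) * (s - 5 / 7) ^ 5 + (-33163200000) * (s - 5 / 7) ^ 6 + (-13119750000) * (s - 5 / 7) ^ 7 + (-2040850000) * (s - 5 / 7) ^ 8)) =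
    226000000 * (s - 5 / 7) + 1060000000 * (s - 5 / 7) ^ 2 - F s := by
    rw [F_eq]; ring
  rw [e] at h2
  linarith

/-- bound for at least three points -/
lemma three_bound (X Y : ℝ) (hX : 0 ≤ X) (h1 : Y ≤ X ^ 2) (h2 : 4 * Y ≤ 23 / 49 + X ^ 2 - 10 / 7 * X)
    (h3 : 10 / 7 * X ≤ 1 / 2) : 226000000 * X + 1060000000 * Y < BB := by
  unfold BB
  rcases le_total X (23 / 100) with h | h
  · nlinarith
  · nlinarith

end Pool.Agent.Helper843.Kiss
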