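import Mathlib

set_option autoImplicit false

namespace Pool.Agent.Helper843.Leg

open Finset

/-- Legendre polynomial -/
noncomputable def P1 (t : ℝ) : ℝ := 1 * t

/-- weights and associated factors -/
noncomputable def a1 : ℕ → ℝ
  | 0 => 1
  | 1 => 1
  | _ => 0

noncomputable def q1 : ℕ → ℝ → ℝ
  | 0, z => 1 * z
  | 1, _ => 1
  | _, _ => 0

lemma add1 (z w ρ D : ℝ) (T : ℕ → ℝ) (_hD : D = (1 - z ^ 2) * (1 - w ^ 2)) (h0 : T 0 = 1) (h1 : T 1 = ρ)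
    (_hT : ∀ m, T (m + 2) = 2 * ρ * T (m + 1) - D * T m) :
    P1 (z * w + ρ) = ∑ m ∈ range 2, a1 m * (q1 m z * q1 m w * T m) := by
  simp only [sum_range_succ, sum_range_zero, a1, q1, P1]
  rw [h1, h0]
  ring

lemma a1_nonneg (m : ℕ) : 0 ≤ a1 m := by
  unfold a1; split <;> norm_num

/-- Legendre polynomial -/
noncomputable def P2 (t : ℝ) : ℝ := (3 / 2) * t ^ 2 + (-1 / 2)

/-- weights and associated factors -/
noncomputable def a2 : ℕ → ℝ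
  | 0 => (1 / 4)
  | 1 => 3
  | 2 => (3 / 4)
  | _ => 0

noncomputable def q2 : ℕ → ℝ → ℝ
  | 0, z => 3 * z ^ 2 + (-1)
  | 1, z => 1 * z
  | 2, _ => 1
  | _, _ => 0

lemma add2 (z w ρ D : ℝ) (T : ℕ → ℝ) (hD : D = (1 - z ^ 2) * (1 - w ^ 2)) (h0 : T 0 = 1) (h1 : T 1 = ρ)
    (hT : ∀ m, T (m + 2) = 2 * ρ * T (m + 1) - D * T m) :
    P2 (z * w + ρ) = ∑ m ∈ range 3, a2 m * (q2 m z * q2 m w * T m) := by
  have t2 : T 2 = _ := hT 0
  norm_num at t2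
  simp only [sum_range_succ, sum_range_zero, a2, q2, P2]
  rw [t2, h1, h0]
  rw [hD]
  ring

lemma a2_nonneg (m : ℕ) : 0 ≤ a2 m := by
  unfold a2; split <;> norm_num

/-- Legendre polynomial -/
noncomputable def P3 (t : ℝ) : ℝ := (5 / 2) * t ^ 3 + (-3 / 2) * t

/-- weights and associated factors -/
noncomputable def a3 : ℕ → ℝ
  | 0 => (1 / 4)
  | 1 => (3 / 8)
  | 2 => (15 / 4)
  | 3 => (5 / 8)
  | _ => 0

noncomputable def q3 : ℕ → ℝ → ℝ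
  | 0, z => 5 * z ^ 3 + (-3) * z
  | 1, z => 5 * z ^ 2 + (-1)
  | 2, z => 1 * z
  | 3, _ => 1
  | _, _ => 0

lemma add3 (z w ρ D : ℝ) (T : ℕ → ℝ) (hD : D = (1 - z ^ 2) * (1 - w ^ 2)) (h0 : T 0 = 1) (h1 : T 1 = ρ)
    (hT : ∀ m, T (m + 2) = 2 * ρ * T (m + 1) - D * T m) :
    P3 (z * w + ρ) = ∑ m ∈ range 4, a3 m * (q3 m z * q3 m w * T m) := by
  have t2 : T 2 = _ := hT 0
  have t3 : T 3 = _ := hT 1
  norm_num at t2 t3
  simp only [sum_range_succ, sum_range_zero, a3, q3, P3]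
  rw [t3, t2, h1, h0]
  rw [hD]
  ring

lemma a3_nonneg (m : ℕ) : 0 ≤ a3 m := by
  unfold a3; split <;> norm_num

/-- Legendre polynomial -/
noncomputable def P4 (t : ℝ) : ℝ := (35 / 8) * t ^ 4 + (-15 / 4) * t ^ 2 + (3 / 8)

/-- weights and associated factors -/
noncomputable def a4 : ℕ → ℝ
  | 0 => (1 / 64)
  | 1 => (5 / 8)
  | 2 => (5 / 16)
  | 3 => (35 / 8)
  | 4 => (35 / 64)
  | _ => 0

noncomputable def q4 : ℕ → ℝ → ℝ
  | 0, z => 35 * z ^ 4 + (-30) * z ^ 2 + 3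
  | 1, z => 7 * z ^ 3 + (-3) * z
  | 2, z => 7 * z ^ 2 + (-1)
  | 3, z => 1 * z
  | 4, _ => 1
  | _, _ => 0

lemma add4 (z w ρ D : ℝ) (T : ℕ → ℝ) (hD : D = (1 - z ^ 2) * (1 - w ^ 2)) (h0 : T 0 = 1) (h1 : T 1 = ρ)
    (hT : ∀ m, T (m + 2) = 2 * ρ * T (m + 1) - D * T m) :
    P4 (z * w + ρ) = ∑ m ∈ range 5, a4 m * (q4 m z * q4 m w * T m) := by
  have t2 : T 2 = _ := hT 0
  have t3 : T 3 = _ := hT 1
  have t4 : T 4 = _ := hT 2
  norm_num at t2 t3 t4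
  simp only [sum_range_succ, sum_range_zero, a4, q4, P4]
  rw [t4, t3, t2, h1, h0]
  rw [hD]
  ring

lemma a4_nonneg (m : ℕ) : 0 ≤ a4 m := by
  unfold a4; split <;> norm_num

/-- Legendre polynomial -/
noncomputable def P5 (t : ℝ) : ℝ := (63 / 8) * t ^ 5 + (-35 / 4) * t ^ 3 + (15 / 8) * t

/-- weights and associated factors -/
noncomputable def a5 : ℕ → ℝ
  | 0 => (1 / 64)
  | 1 => (15 / 64)
  | 2 => (105 / 16)
  | 3 => (35 / 128)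
  | 4 => (315 / 64)
  | 5 => (63 / 128)
  | _ => 0

noncomputable def q5 : ℕ → ℝ → ℝ
  | 0, z => 63 * z ^ 5 + (-70) * z ^ 3 + 15 * z
  | 1, z => 21 * z ^ 4 + (-14) * z ^ 2 + 1
  | 2, z => 3 * z ^ 3 + (-1) * z
  | 3, z => 9 * z ^ 2 + (-1)
  | 4, z => 1 * z
  | 5, _ => 1
  | _, _ => 0

lemma add5 (z w ρ D : ℝ) (T : ℕ → ℝ) (hD : D = (1 - z ^ 2) * (1 - w ^ 2)) (h0 : T 0 = 1) (h1 : T 1 = ρ)
    (hT : ∀ m, T (m + 2) = 2 * ρ * T (m + 1) - D * T m) :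
    P5 (z * w + ρ) = ∑ m ∈ range 6, a5 m * (q5 m z * q5 m w * T m) := by
  have t2 : T 2 = _ := hT 0
  have t3 : T 3 = _ := hT 1
  have t4 : T 4 = _ := hT 2
  have t5 : T 5 = _ := hT 3
  norm_num at t2 t3 t4 t5
  simp only [sum_range_succ, sum_range_zero, a5, q5, P5]
  rw [t5, t4, t3, t2, h1, h0]
  rw [hD]
  ring

lemma a5_nonneg (m : ℕ) : 0 ≤ a5 m := by
  unfold a5; split <;> norm_num

/-- Legendre polynomial -/
noncomputable def P9 (t : ℝ) : ℝ := (12155 / 128) * t ^ 9 + (-6435 / 32) * t ^ 7 + (9009 / 64) * t ^ 5 + (-1155 / 32) * t ^ 3 + (315 / 128) * t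

/-- weights and associated factors -/
noncomputable def a9 : ℕ → ℝ
  | 0 => (1 / 16384)
  | 1 => (45 / 16384)
  | 2 => (495 / 2048)
  | 3 => (1155 / 8192)
  | 4 => (45045 / 4096)
  | 5 => (1287 / 8192)
  | 6 => (2145 / 2048)
  | 7 => (6435 / 32768)
  | 8 => (109395 / 16384)
  | 9 => (12155 / 32768)
  | _ => 0

noncomputable def q9 : ℕ → ℝ → ℝ
  | 0, z => 12155 * z ^ 9 + (-25740) * z ^ 7 + 18018 * z ^ 5 + (-4620) * z ^ 3 + 315 * z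
  | 1, z => 2431 * z ^ 8 + (-4004) * z ^ 6 + 2002 * z ^ 4 + (-308) * z ^ 2 + 7
  | 2, z => 221 * z ^ 7 + (-273) * z ^ 5 + 91 * z ^ 3 + (-7) * z
  | 3, z => 221 * z ^ 6 + (-195) * z ^ 4 + 39 * z ^ 2 + (-1)
  | 4, z => 17 * z ^ 5 + (-10) * z ^ 3 + 1 * z
  | 5, z => 85 * z ^ 4 + (-30) * z ^ 2 + 1
  | 6, z => 17 * z ^ 3 + (-3) * z
  | 7, z => 17 * z ^ 2 + (-1)
  | 8, z => 1 * z
  | 9, _ => 1
  | _, _ => 0

lemma add9 (z w ρ D : ℝ) (T : ℕ → ℝ) (hD : D = (1 - z ^ 2) * (1 - w ^ 2)) (h0 : T 0 = 1) (h1 : T 1 = ρ)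
    (hT : ∀ m, T (m + 2) = 2 * ρ * T (m + 1) - D * T m) :
    P9 (z * w + ρ) = ∑ m ∈ range 10, a9 m * (q9 m z * q9 m w * T m) := by
  have t2 : T 2 = _ := hT 0
  have t3 : T 3 = _ := hT 1
  have t4 : T 4 = _ := hT 2
  have t5 : T 5 = _ := hT 3
  have t6 : T 6 = _ := hT 4
  have t7 : T 7 = _ := hT 5
  have t8 : T 8 = _ := hT 6
  have t9 : T 9 = _ := hT 7
  norm_num at t2 t3 t4 t5 t6 t7 t8 t9
  simp only [sum_range_succ, sum_range_zero, a9, q9, P9]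
  rw [t9, t8, t7, t6, t5, t4, t3, t2, h1, h0]
  rw [hD]
  ring

lemma a9_nonneg (m : ℕ) : 0 ≤ a9 m := by
  unfold a9; split <;> norm_num


lemma psd {ι : Type*} [Fintype ι] (g : ι → ℂ) :
    0 ≤ ∑ i, ∑ j, (g i * (starRingEnd ℂ) (g j)).re := by
  have : ∑ i, ∑ j, (g i * (starRingEnd ℂ) (g j)).re = Complex.normSq (∑ i, g i) := by
    rw [← Complex.ofReal_inj, Complex.normSq_eq_conj_mul_self, map_sum, mul_comm, Finset.sum_mul_sum]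
    have h2 : (∑ i, ∑ j, g i * (starRingEnd ℂ) (g j)).im = 0 := by
      rw [← Finset.sum_mul_sum, ← map_sum, Complex.mul_conj]
      simp
    apply Complex.ext
    · simp
    · simp only [Complex.ofReal_im]
      exact h2.symm
  rw [this]
  exact Complex.normSq_nonneg _

lemma psdP {ι : Type*} [Fintype ι] (K : ℕ) (P : ℝ → ℝ) (a : ℕ → ℝ) (q : ℕ → ℝ → ℝ)
    (ha : ∀ m, 0 ≤ a m)
    (hadd : ∀ (z w ρ D : ℝ) (T : ℕ → ℝ), D = (1 - z ^ 2) * (1 - w ^ 2) → T 0 = 1 → T 1 = ρ →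
      (∀ m, T (m + 2) = 2 * ρ * T (m + 1) - D * T m) →
      P (z * w + ρ) = ∑ m ∈ range K, a m * (q m z * q m w * T m))
    (z : ι → ℝ) (ξ : ι → ℂ) (hξ : ∀ i, Complex.normSq (ξ i) = 1 - z i ^ 2) :
    0 ≤ ∑ i, ∑ j, P (z i * z j + (ξ i * (starRingEnd ℂ) (ξ j)).re) := by
  have e : ∀ i j, P (z i * z j + (ξ i * (starRingEnd ℂ) (ξ j)).re) =
      ∑ m ∈ range K, a m * (((q m (z i) : ℂ) * ξ i ^ m) * (starRingEnd ℂ) ((q m (z j) : ℂ) * ξ j ^ m)).re := by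
    intro i j
    set ζ : ℂ := ξ i * (starRingEnd ℂ) (ξ j) with hζ
    have hD : Complex.normSq ζ = (1 - z i ^ 2) * (1 - z j ^ 2) := by
      rw [hζ, Complex.normSq_mul, Complex.normSq_conj, hξ, hξ]
    have hq : ζ ^ 2 = 2 * (ζ.re : ℂ) * ζ - (Complex.normSq ζ : ℂ) := by
      rw [Complex.normSq_eq_conj_mul_self]
      have : (2 : ℂ) * (ζ.re : ℂ) = ζ + (starRingEnd ℂ) ζ := by
        rw [Complex.add_conj]; push_cast; ring
      rw [this]; ring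
    rw [hadd (z i) (z j) ζ.re (Complex.normSq ζ) (fun m => (ζ ^ m).re) hD (by simp) (by simp) ?_]
    · refine sum_congr rfl fun m _ => ?_
      congr 1
      have : ((q m (z i) : ℂ) * ξ i ^ m) * (starRingEnd ℂ) ((q m (z j) : ℂ) * ξ j ^ m)
          = ((q m (z i) * q m (z j) : ℝ) : ℂ) * ζ ^ m := by
        rw [hζ, map_mul, map_pow, Complex.conj_ofReal, mul_pow]
        push_cast; ring
      rw [this, Complex.re_ofReal_mul]
    · intro m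
      have : ζ ^ (m + 2) = ((2 * ζ.re : ℝ) : ℂ) * ζ ^ (m + 1) - ((Complex.normSq ζ : ℝ) : ℂ) * ζ ^ m := by
        rw [pow_add, hq, pow_succ]; push_cast; ring
      show (ζ ^ (m + 2)).re = _
      rw [this, Complex.sub_re, Complex.re_ofReal_mul, Complex.re_ofReal_mul]
  simp_rw [e]
  have : ∑ i, ∑ j, ∑ m ∈ range K, a m * (((q m (z i) : ℂ) * ξ i ^ m) * (starRingEnd ℂ) ((q m (z j) : ℂ) * ξ j ^ m)).re
      = ∑ m ∈ range K, a m * ∑ i, ∑ j, (((q m (z i) : ℂ) * ξ i ^ m) * (starRingEnd ℂ) ((q m (z j) : ℂ) * ξ j ^ m)).re := by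
    simp_rw [mul_sum]
    calc _ = ∑ i, ∑ m ∈ range K, ∑ j, a m * (((q m (z i) : ℂ) * ξ i ^ m) * (starRingEnd ℂ) ((q m (z j) : ℂ) * ξ j ^ m)).re :=
          sum_congr rfl fun i _ => sum_comm
      _ = _ := sum_comm
  rw [this]
  exact sum_nonneg fun m _ => mul_nonneg (ha m) (psd _)

end Pool.Agent.Helper843.Leg
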