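import Mathlib
import Pool.Agent.Helper843.Leg
import Pool.Agent.Helper843.KissPoly

set_option autoImplicit false

namespace Pool.Agent.Helper843.Kiss

open Finset

section gram

variable {V : Type*} [NormedAddCommGroup V] [InnerProductSpace ℝ V]

lemma wnorm {ι : Type*} (S : Finset ι) (y : ι → V) (l : ι → ℝ) (hl : ∀ i ∈ S, 0 ≤ l i)
    (hy : ∀ i ∈ S, ‖y i‖ = 1)
    (hij : ∀ i ∈ S, ∀ j ∈ S, i ≠ j → inner ℝ (y i) (y j) ≤ 1 / 2) :
    ‖∑ i ∈ S, l i • y i‖ ^ 2 ≤ (∑ i ∈ S, l i ^ 2 + (∑ i ∈ S, l i) ^ 2) / 2 := by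
  classical
  rw [← real_inner_self_eq_norm_sq, sum_inner]
  simp_rw [inner_sum, real_inner_smul_left, real_inner_smul_right]
  have h1 : ∀ i ∈ S, ∀ j ∈ S, l i * (l j * inner ℝ (y i) (y j)) ≤
      l i * l j / 2 + (if i = j then l i ^ 2 / 2 else 0) := by
    intro i hi j hj
    split_ifs with h
    · subst h
      rw [real_inner_self_eq_norm_sq, hy i hi]
      nlinarith
    · have := mul_le_mul_of_nonneg_left (hij i hi j hj h) (mul_nonneg (hl i hi) (hl j hj))
      linarith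
  calc ∑ i ∈ S, ∑ j ∈ S, l i * (l j * inner ℝ (y i) (y j))
      ≤ ∑ i ∈ S, ∑ j ∈ S, (l i * l j / 2 + (if i = j then l i ^ 2 / 2 else 0)) :=
        sum_le_sum fun i hi => sum_le_sum fun j hj => h1 i hi j hj
    _ = (∑ i ∈ S, l i ^ 2 + (∑ i ∈ S, l i) ^ 2) / 2 := by
        simp_rw [sum_add_distrib]
        rw [sq (∑ i ∈ S, l i), sum_mul_sum, add_div, add_comm]
        congr 1
        · rw [sum_div]
          refine sum_congr rfl fun i hi => ?_
          simp [hi]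
        · rw [sum_div]
          refine sum_congr rfl fun i _ => ?_
          rw [sum_div]

lemma gram {ι : Type*} (S : Finset ι) (y : ι → V) (e : V) (he : ‖e‖ = 1)
    (hy : ∀ i ∈ S, ‖y i‖ = 1)
    (hij : ∀ i ∈ S, ∀ j ∈ S, i ≠ j → inner ℝ (y i) (y j) ≤ 1 / 2)
    (hs : ∀ i ∈ S, 5 / 7 ≤ inner ℝ e (y i)) :
    ((#S : ℝ) + 1) * ∑ i ∈ S, (inner ℝ e (y i)) ^ 2 - (∑ i ∈ S, inner ℝ e (y i)) ^ 2
      ≤ ((#S : ℝ) + 1) / 2 := by
  set s : ι → ℝ := fun i => inner ℝ e (y i) with hsdef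
  set m : ℝ := (#S : ℝ) with hm
  have hm0 : 0 ≤ m := by positivity
  set σ : ℝ := ∑ i ∈ S, s i with hσ
  have key : ∀ l : ι → ℝ, (∀ i ∈ S, 0 ≤ l i) →
      (∑ i ∈ S, l i * s i) ^ 2 ≤ (∑ i ∈ S, l i ^ 2 + (∑ i ∈ S, l i) ^ 2) / 2 := by
    intro l hl
    refine le_trans ?_ (wnorm S y l hl hy hij)
    have h1 : ∑ i ∈ S, l i * s i = inner ℝ e (∑ i ∈ S, l i • y i) := by
      rw [inner_sum]
      refine sum_congr rfl fun i _ => ?_
      rw [real_inner_smul_right]
    rw [h1]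
    have h2 := abs_real_inner_le_norm e (∑ i ∈ S, l i • y i)
    rw [he, one_mul] at h2
    exact sq_le_sq' (by linarith [neg_abs_le (inner ℝ e (∑ i ∈ S, l i • y i))])
      ((le_abs_self _).trans h2)
  have h1 := key (fun _ => 1) (fun _ _ => zero_le_one)
  simp only [one_mul, one_pow, sum_const, nsmul_eq_mul, mul_one] at h1
  have hσ2 : σ ^ 2 ≤ (m + m ^ 2) / 2 := h1
  have hσle : σ ≤ (m + 1) * (5 / 7) := by
    apply le_of_sq_le_sq _ (by positivity)
    nlinarith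
  have h2 := key (fun i => (m + 1) * s i - σ) (fun i hi => by
    have : (m + 1) * (5 / 7) ≤ (m + 1) * s i := mul_le_mul_of_nonneg_left (hs i hi) (by positivity)
    show 0 ≤ (m + 1) * s i - σ
    linarith)
  have e1 : ∑ i ∈ S, ((m + 1) * s i - σ) = σ := by
    rw [sum_sub_distrib, ← mul_sum, sum_const, nsmul_eq_mul]
    ring
  have e2 : ∑ i ∈ S, ((m + 1) * s i - σ) * s i = (m + 1) * ∑ i ∈ S, s i ^ 2 - σ ^ 2 := by
    have : ∀ i ∈ S, ((m + 1) * s i - σ) * s i = (m + 1) * s i ^ 2 - σ * s i := fun i _ => by ring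
    rw [sum_congr rfl this, sum_sub_distrib, ← mul_sum, ← mul_sum]
    ring
  have e3 : ∑ i ∈ S, ((m + 1) * s i - σ) ^ 2
      = (m + 1) ^ 2 * ∑ i ∈ S, s i ^ 2 - 2 * (m + 1) * σ ^ 2 + m * σ ^ 2 := by
    have : ∀ i ∈ S, ((m + 1) * s i - σ) ^ 2 = (m + 1) ^ 2 * s i ^ 2 - 2 * (m + 1) * σ * s i + σ ^ 2 :=
      fun i _ => by ring
    rw [sum_congr rfl this, sum_add_distrib, sum_sub_distrib, ← mul_sum, ← mul_sum, sum_const,
      nsmul_eq_mul]
    ring
  rw [e1, e2, e3] at h2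
  set Q : ℝ := (m + 1) * ∑ i ∈ S, s i ^ 2 - σ ^ 2 with hQ
  have h3 : Q ^ 2 ≤ (m + 1) / 2 * Q := by
    have : ((m + 1) ^ 2 * ∑ i ∈ S, s i ^ 2 - 2 * (m + 1) * σ ^ 2 + m * σ ^ 2 + σ ^ 2) / 2
        = (m + 1) / 2 * Q := by rw [hQ]; ring
    linarith
  by_contra hc
  push Not at hc
  have hQ0 : 0 < Q := lt_of_le_of_lt (by positivity) hc
  nlinarith

/-- the local bound -/
lemma local_bound {ι : Type*} (S : Finset ι) (y : ι → V) (e : V) (he : ‖e‖ = 1)
    (hy : ∀ i ∈ S, ‖y i‖ = 1)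
    (hij : ∀ i ∈ S, ∀ j ∈ S, i ≠ j → inner ℝ (y i) (y j) ≤ 1 / 2)
    (hs : ∀ i ∈ S, 5 / 7 ≤ inner ℝ e (y i)) :
    ∑ i ∈ S, F (inner ℝ e (y i)) < BB := by
  classical
  have hg := gram S y e he hy hij hs
  have hs1 : ∀ i ∈ S, inner ℝ e (y i) ≤ 1 := by
    intro i hi
    have := real_inner_le_norm e (y i)
    rw [he, hy i hi] at this
    linarith
  rcases Nat.lt_or_ge (#S) 3 with h3 | h3
  · interval_cases hc : #S
    · rw [card_eq_zero] at hc
      subst hc
      simp [BB]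
    · obtain ⟨i, hi⟩ := card_eq_one.1 hc
      subst hi
      have := I2 (inner ℝ e (y i)) (hs i (by simp)) (hs1 i (by simp))
      simp only [sum_singleton]
      linarith
    · obtain ⟨i, j, hne, hi⟩ := card_eq_two.1 hc
      subst hi
      rw [sum_pair hne, sum_pair hne] at hg
      rw [sum_pair hne]
      refine pair _ _ (hs i (by simp)) (hs j (by simp)) ?_
      push_cast at hg
      nlinarith
  · set m : ℝ := (#S : ℝ) with hm
    have hm3 : (3 : ℝ) ≤ m := by rw [hm]; exact_mod_cast h3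
    set x : ι → ℝ := fun i => inner ℝ e (y i) - 5 / 7 with hx
    have hx0 : ∀ i ∈ S, 0 ≤ x i := fun i hi => sub_nonneg.2 (hs i hi)
    set X : ℝ := ∑ i ∈ S, x i with hX
    set Y : ℝ := ∑ i ∈ S, x i ^ 2 with hY
    have e1 : ∑ i ∈ S, inner ℝ e (y i) = X + m * (5 / 7) := by
      rw [hX, hx]
      simp only [sum_sub_distrib, sum_const, nsmul_eq_mul]
      ring
    have e2 : ∑ i ∈ S, (inner ℝ e (y i)) ^ 2 = Y + 10 / 7 * X + m * (25 / 49) := by
      have : ∀ i ∈ S, (inner ℝ e (y i)) ^ 2 = x i ^ 2 + 10 / 7 * x i + 25 / 49 := fun i _ => by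
        simp only [hx]; ring
      rw [sum_congr rfl this, sum_add_distrib, sum_add_distrib, ← mul_sum, sum_const, nsmul_eq_mul]
    rw [e1, e2] at hg
    have hX0 : 0 ≤ X := sum_nonneg hx0
    have hY0 : 0 ≤ Y := sum_nonneg fun i _ => sq_nonneg _
    have hYX : Y ≤ X ^ 2 := by
      rw [hY, sq X, hX, sum_mul]
      refine sum_le_sum fun i hi => ?_
      rw [sq]
      exact mul_le_mul_of_nonneg_left (single_le_sum hx0 hi) (hx0 i hi)
    have hCS : X ^ 2 ≤ m * Y := by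
      have := sq_sum_le_card_mul_sum_sq (s := S) (f := x)
      exact this
    have hq : (m + 1) * Y - X ^ 2 + 10 / 7 * X ≤ 1 / 2 - m / 98 := by nlinarith
    have h4 : 4 * Y ≤ 23 / 49 + X ^ 2 - 10 / 7 * X := by nlinarith
    have h5 : 10 / 7 * X ≤ 1 / 2 := by nlinarith
    have h6 := three_bound X Y hX0 hYX h4 h5
    refine lt_of_le_of_lt ?_ h6
    rw [hX, hY, mul_sum, mul_sum, ← sum_add_distrib]
    exact sum_le_sum fun i hi => F_le_quad _ (hs i hi) (hs1 i hi)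

end gram

abbrev E := EuclideanSpace ℝ (Fin 3)

lemma f_expand (t : ℝ) : f t = 342010999 / 5 + 54885283113 / 385 * Leg.P1 t
    + 8360585780 / 35 * Leg.P2 t + 9841868148 / 65 * Leg.P3 t + 4763242392 / 35 * Leg.P4 t
    + 591205000 / 35 * Leg.P5 t + 15366400000 / 715 * Leg.P9 t := by
  unfold f Leg.P1 Leg.P2 Leg.P3 Leg.P4 Leg.P5 Leg.P9
  ring

lemma sum_f {ι : Type*} [Fintype ι] (x : ι → E) (hx : ∀ i, ‖x i‖ = 1) :
    342010999 / 5 * (Fintype.card ι : ℝ) ^ 2 ≤ ∑ i, ∑ j, f (inner ℝ (x i) (x j)) := by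
  set z : ι → ℝ := fun i => x i 2 with hz
  set ξ : ι → ℂ := fun i => ⟨x i 0, x i 1⟩ with hξ
  have hn : ∀ i, Complex.normSq (ξ i) = 1 - z i ^ 2 := by
    intro i
    have h1 : ‖x i‖ ^ 2 = 1 := by rw [hx i]; norm_num
    rw [EuclideanSpace.norm_sq_eq, Fin.sum_univ_three] at h1
    simp only [Real.norm_eq_abs, sq_abs] at h1
    simp only [hξ, hz, Complex.normSq_mk]
    linarith
  have hin : ∀ i j, inner ℝ (x i) (x j) = z i * z j + (ξ i * (starRingEnd ℂ) (ξ j)).re := by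
    intro i j
    simp only [PiLp.inner_apply, Fin.sum_univ_three, hz, hξ, Complex.mul_re, Complex.conj_re,
      Complex.conj_im]
    simp
    ring
  have p1 := Leg.psdP 2 Leg.P1 Leg.a1 Leg.q1 Leg.a1_nonneg Leg.add1 z ξ hn
  have p2 := Leg.psdP 3 Leg.P2 Leg.a2 Leg.q2 Leg.a2_nonneg Leg.add2 z ξ hn
  have p3 := Leg.psdP 4 Leg.P3 Leg.a3 Leg.q3 Leg.a3_nonneg Leg.add3 z ξ hn
  have p4 := Leg.psdP 5 Leg.P4 Leg.a4 Leg.q4 Leg.a4_nonneg Leg.add4 z ξ hn
  have p5 := Leg.psdP 6 Leg.P5 Leg.a5 Leg.q5 Leg.a5_nonneg Leg.add5 z ξ hn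
  have p9 := Leg.psdP 10 Leg.P9 Leg.a9 Leg.q9 Leg.a9_nonneg Leg.add9 z ξ hn
  simp_rw [← hin] at p1 p2 p3 p4 p5 p9
  simp_rw [f_expand, sum_add_distrib, ← mul_sum]
  have : ∑ i : ι, ∑ j : ι, (342010999 / 5 : ℝ) = 342010999 / 5 * (Fintype.card ι : ℝ) ^ 2 := by
    simp only [sum_const, card_univ, nsmul_eq_mul]
    ring
  rw [this]
  nlinarith

/-- The kissing number of the unit ball in dimension three is at most 12. -/
theorem kissing {ι : Type*} [Fintype ι] (x : ι → E) (hx : ∀ i, ‖x i‖ = 1)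
    (hij : ∀ i j, i ≠ j → inner ℝ (x i) (x j) ≤ 1 / 2) : Fintype.card ι ≤ 12 := by
  classical
  by_contra hc
  push Not at hc
  have hN : (13 : ℝ) ≤ (Fintype.card ι : ℝ) := by exact_mod_cast hc
  have h1 := sum_f x hx
  have h2 : ∀ i, ∑ j, f (inner ℝ (x i) (x j)) < 13 * (342010999 / 5 : ℝ) := by
    intro i
    set S : Finset ι := univ.filter (fun j => 5 / 7 ≤ inner ℝ (-x i) (x j)) with hS
    have hiS : i ∉ S := by
      rw [hS, mem_filter]
      rintro ⟨-, h⟩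
      rw [inner_neg_left, real_inner_self_eq_norm_sq, hx i] at h
      norm_num at h
    have hl := local_bound S x (-x i) (by rw [norm_neg, hx]) (fun j _ => hx j)
      (fun j _ k _ hjk => hij j k hjk) (fun j hj => (mem_filter.1 hj).2)
    have h3 : ∑ j, f (inner ℝ (x i) (x j)) ≤ f 1 + ∑ j ∈ S, F (inner ℝ (-x i) (x j)) := by
      have e1 : ∀ j, f (inner ℝ (x i) (x j)) ≤
          (if j = i then f 1 else 0) + (if j ∈ S then F (inner ℝ (-x i) (x j)) else 0) := by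
        intro j
        by_cases hji : j = i
        · subst hji
          rw [if_pos rfl, if_neg hiS, real_inner_self_eq_norm_sq, hx j]
          norm_num
        · rw [if_neg hji]
          by_cases hjS : j ∈ S
          · rw [if_pos hjS, inner_neg_left]
            unfold F
            rw [neg_neg]
            linarith
          · rw [if_neg hjS]
            have : ¬ (5 / 7 ≤ inner ℝ (-x i) (x j)) := fun h => hjS (mem_filter.2 ⟨mem_univ _, h⟩)
            rw [inner_neg_left] at this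
            have h5 := f_nonpos (inner ℝ (x i) (x j)) (by linarith) (hij i j (Ne.symm hji))
            linarith
      calc ∑ j, f (inner ℝ (x i) (x j))
          ≤ ∑ j, ((if j = i then f 1 else 0) + (if j ∈ S then F (inner ℝ (-x i) (x j)) else 0)) :=
            sum_le_sum fun j _ => e1 j
        _ = f 1 + ∑ j ∈ S, F (inner ℝ (-x i) (x j)) := by
            rw [sum_add_distrib]
            congr 1
            · simp
            · rw [← sum_filter]
              congr 1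
              ext j
              simp
    have h4 := f_one
    linarith
  have h3 : ∑ i, ∑ j, f (inner ℝ (x i) (x j)) ≤ ∑ i : ι, 13 * (342010999 / 5 : ℝ) :=
    sum_le_sum fun i _ => (h2 i).le
  have hne : (univ : Finset ι).Nonempty := by
    rw [← card_pos, card_univ]; omega
  have h4 : ∑ i, ∑ j, f (inner ℝ (x i) (x j)) < ∑ i : ι, 13 * (342010999 / 5 : ℝ) :=
    sum_lt_sum_of_nonempty hne fun i _ => h2 i
  rw [sum_const, nsmul_eq_mul, card_univ] at h4
  nlinarith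

end Pool.Agent.Helper843.Kiss
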