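import Mathlib

open MeasureTheory Set ENNReal Metric

namespace Pool.Agent.Helper843.Law

noncomputable section

set_option linter.unusedSectionVars false

section radial

variable {F : Type*} [NormedAddCommGroup F] [InnerProductSpace ℝ F] [FiniteDimensional ℝ F]
  [MeasurableSpace F] [BorelSpace F]

theorem lintegral_norm_radial [Nontrivial F] {f : ℝ → ℝ≥0∞} (hf : Measurable f) :
    ∫⁻ v : F, f ‖v‖ = (volume : Measure F).toSphere univ *
      ∫⁻ ρ in Ioi (0 : ℝ), ENNReal.ofReal (ρ ^ (Module.finrank ℝ F - 1)) * f ρ := by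
  have h0 : ∫⁻ v : F, f ‖v‖ = ∫⁻ v in ({0}ᶜ : Set F), f ‖v‖ := by
    rw [restrict_compl_singleton]
  have h1 : ∫⁻ v in ({0}ᶜ : Set F), f ‖v‖
      = ∫⁻ v : ({0}ᶜ : Set F), f ‖(v : F)‖ ∂((volume : Measure F).comap (↑)) := by
    rw [lintegral_subtype_comap (measurableSet_singleton _).compl (fun v => f ‖v‖)]
  have h2 := (volume : Measure F).measurePreserving_homeomorphUnitSphereProd.lintegral_comp_emb
    (Homeomorph.measurableEmbedding _) (fun p => f p.2)
  have h3 : ∀ v : ({0}ᶜ : Set F), ((homeomorphUnitSphereProd F v).2 : ℝ) = ‖(v : F)‖ := by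
    intro v; simp
  simp only [h3] at h2
  rw [h0, h1, h2]
  have mf : Measurable (fun r : Ioi (0 : ℝ) => f r) := hf.comp measurable_subtype_coe
  rw [lintegral_prod (fun p : sphere (0 : F) 1 × Ioi (0 : ℝ) => f p.2)
    (mf.comp measurable_snd).aemeasurable]
  simp only [lintegral_const]
  rw [mul_comm]
  congr 1
  rw [Measure.volumeIoiPow, lintegral_withDensity_eq_lintegral_mul]
  · simp only [Pi.mul_apply]
    rw [lintegral_subtype_comap measurableSet_Ioi
      (fun r : ℝ => ENNReal.ofReal (r ^ (Module.finrank ℝ F - 1)) * f r)]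
  · exact (measurable_subtype_coe.pow_const _).ennreal_ofReal
  · exact mf

end radial

section iso

variable {V : Type*} [NormedAddCommGroup V] [InnerProductSpace ℝ V] [FiniteDimensional ℝ V]
  [MeasurableSpace V] [BorelSpace V]

abbrev FF (m : ℕ) := EuclideanSpace ℝ (Fin m)

theorem exists_iso {m : ℕ} (hm : Module.finrank ℝ V = m + 1) (x : V) :
    ∃ Ψ : V ≃ₗᵢ[ℝ] WithLp 2 (ℝ × FF m), Ψ x = WithLp.toLp 2 (‖x‖, 0) := by
  have h2 : Module.finrank ℝ (WithLp 2 (ℝ × FF m)) = m + 1 := by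
    rw [LinearEquiv.finrank_eq (WithLp.linearEquiv 2 ℝ (ℝ × FF m))]
    simp [add_comm]
  let e : Fin (Module.finrank ℝ V) ≃ Fin (Module.finrank ℝ (WithLp 2 (ℝ × FF m))) :=
    finCongr (by rw [hm, h2])
  let Ψ₀ : V ≃ₗᵢ[ℝ] WithLp 2 (ℝ × FF m) :=
    (stdOrthonormalBasis ℝ V).equiv (stdOrthonormalBasis ℝ (WithLp 2 (ℝ × FF m))) e
  have hn : ‖Ψ₀ x‖ = ‖(WithLp.toLp 2 (‖x‖, 0) : WithLp 2 (ℝ × FF m))‖ := by
    rw [LinearIsometryEquiv.norm_map]
    simp
  refine ⟨Ψ₀.trans (Submodule.reflection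
    (Submodule.span ℝ {Ψ₀ x - (WithLp.toLp 2 (‖x‖, 0) : WithLp 2 (ℝ × FF m))})ᗮ), ?_⟩
  rw [LinearIsometryEquiv.trans_apply]
  exact Submodule.reflection_sub hn

theorem lintegral_inner_norm {m : ℕ} (hm : Module.finrank ℝ V = m + 1) (x : V)
    {H : ℝ → ℝ → ℝ≥0∞} (hH : Measurable (fun p : ℝ × ℝ => H p.1 p.2)) :
    ∫⁻ z : V, H (inner ℝ x z) ‖z‖ =
      ∫⁻ a : ℝ, ∫⁻ v : FF m, H (‖x‖ * a) (√(a ^ 2 + ‖v‖ ^ 2)) := by
  obtain ⟨Ψ, hΨ⟩ := exists_iso hm x
  have h1 : ∫⁻ z : V, H (inner ℝ x z) ‖z‖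
      = ∫⁻ w : WithLp 2 (ℝ × FF m), H (inner ℝ (Ψ x) w) ‖w‖ := by
    rw [← (LinearIsometryEquiv.measurePreserving Ψ).lintegral_comp_emb
      Ψ.toHomeomorph.measurableEmbedding (fun w => H (inner ℝ (Ψ x) w) ‖w‖)]
    refine lintegral_congr fun z => ?_
    rw [LinearIsometryEquiv.inner_map_map, LinearIsometryEquiv.norm_map]
  have h2 : ∫⁻ w : WithLp 2 (ℝ × FF m), H (inner ℝ (Ψ x) w) ‖w‖
      = ∫⁻ q : ℝ × FF m, H (‖x‖ * q.1) (√(q.1 ^ 2 + ‖q.2‖ ^ 2)) := by
    rw [← (WithLp.volume_preserving_symm_measurableEquiv_toLp_prod ℝ (FF m)).symm.lintegral_comp_emb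
      (MeasurableEquiv.measurableEmbedding _)]
    refine lintegral_congr fun q => ?_
    rw [hΨ]
    congr 1
    · simp
      ring
    · simp [WithLp.prod_norm_eq_of_L2]
  rw [h1, h2, Measure.volume_eq_prod, lintegral_prod]
  apply Measurable.aemeasurable
  have hg : Measurable (fun q : ℝ × FF m => (‖x‖ * q.1, √(q.1 ^ 2 + ‖q.2‖ ^ 2))) := by
    apply Measurable.prodMk
    · fun_prop
    · apply Real.continuous_sqrt.measurable.comp
      fun_prop
  exact hH.comp hg

theorem lintegral_halfplane {g : ℝ → ℝ → ℝ≥0∞} (hg : Measurable (fun p : ℝ × ℝ => g p.1 p.2)) :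
    ∫⁻ a : ℝ, ∫⁻ ρ in Ioi (0 : ℝ), g a ρ =
      ∫⁻ R in Ioi (0 : ℝ), ∫⁻ θ in Ioo (0 : ℝ) Real.pi,
        ENNReal.ofReal R * g (R * Real.cos θ) (R * Real.sin θ) := by
  have mI : MeasurableSet {p : ℝ × ℝ | 0 < p.2} := measurableSet_lt measurable_const measurable_snd
  have e1 : ∫⁻ a : ℝ, ∫⁻ ρ in Ioi (0 : ℝ), g a ρ
      = ∫⁻ p : ℝ × ℝ, {p : ℝ × ℝ | 0 < p.2}.indicator (fun p => g p.1 p.2) p := by
    rw [Measure.volume_eq_prod, lintegral_prod _ (hg.indicator mI).aemeasurable]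
    refine lintegral_congr fun a => ?_
    rw [← lintegral_indicator measurableSet_Ioi]
    rfl
  rw [e1, ← lintegral_comp_polarCoord_symm, polarCoord_target, Measure.volume_eq_prod,
    setLIntegral_prod]
  · refine setLIntegral_congr_fun measurableSet_Ioi fun R hR => ?_
    have hR0 : (0 : ℝ) < R := hR
    have e2 : Ioo (0 : ℝ) Real.pi = Ioo (-Real.pi) Real.pi ∩ Ioi 0 := by
      ext θ; simp only [mem_Ioo, mem_inter_iff, mem_Ioi]
      constructor
      · intro h; exact ⟨⟨by linarith [Real.pi_pos], h.2⟩, h.1⟩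
      · intro h; exact ⟨h.2, h.1.2⟩
    rw [e2, inter_comm, ← Measure.restrict_restrict measurableSet_Ioi,
      ← lintegral_indicator measurableSet_Ioi]
    refine setLIntegral_congr_fun measurableSet_Ioo fun θ hθ => ?_
    rw [polarCoord_symm_apply]
    by_cases h : 0 < θ
    · rw [indicator_of_mem (show (R * Real.cos θ, R * Real.sin θ) ∈ {p : ℝ × ℝ | 0 < p.2} from
        mul_pos hR0 (Real.sin_pos_of_pos_of_lt_pi h hθ.2)), indicator_of_mem (show θ ∈ Ioi 0 from h)]
      rfl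
    · rw [indicator_of_notMem, indicator_of_notMem]
      · simp
      · exact h
      · simp only [mem_ofPred_eq, not_lt]
        have : Real.sin θ ≤ 0 := Real.sin_nonpos_of_nonpos_of_neg_pi_le (not_lt.1 h) hθ.1.le
        exact mul_nonpos_of_nonneg_of_nonpos hR0.le this
  · apply AEMeasurable.restrict
    apply Measurable.aemeasurable
    apply Measurable.mul
    · exact measurable_fst.ennreal_ofReal
    · apply (hg.indicator mI).comp
      exact continuous_polarCoord_symm.measurable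

theorem law_aux {m : ℕ} (hm : Module.finrank ℝ V = m + 2) (x : V)
    {h : ℝ → ℝ≥0∞} (hh : Measurable h) :
    ∫⁻ z in ball (0 : V) 1, h (inner ℝ x z / ‖z‖) =
      (volume : Measure (FF (m + 1))).toSphere univ *
      ((∫⁻ R in Ioo (0 : ℝ) 1, ENNReal.ofReal (R ^ (m + 1))) *
      ∫⁻ θ in Ioo (0 : ℝ) Real.pi, ENNReal.ofReal (Real.sin θ ^ m) * h (‖x‖ * Real.cos θ)) := by
  set H : ℝ → ℝ → ℝ≥0∞ := fun u ρ => (Iio (1 : ℝ)).indicator (fun ρ => h (u / ρ)) ρ with hH
  have mH : Measurable (fun p : ℝ × ℝ => H p.1 p.2) := by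
    have : (fun p : ℝ × ℝ => H p.1 p.2)
        = {p : ℝ × ℝ | p.2 < 1}.indicator (fun p => h (p.1 / p.2)) := by
      ext p
      simp only [hH, indicator]
      rfl
    rw [this]
    apply Measurable.indicator
    · exact hh.comp (measurable_fst.div measurable_snd)
    · exact measurableSet_lt measurable_snd measurable_const
  have e0 : ∫⁻ z in ball (0 : V) 1, h (inner ℝ x z / ‖z‖) = ∫⁻ z : V, H (inner ℝ x z) ‖z‖ := by
    rw [← lintegral_indicator measurableSet_ball]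
    refine lintegral_congr fun z => ?_
    simp only [hH, indicator, mem_ball_zero_iff, mem_Iio]
  have hFF : Module.finrank ℝ (FF (m + 1)) = m + 1 := by simp
  rw [e0, lintegral_inner_norm (m := m + 1) hm x mH]
  have e1 : ∀ a : ℝ, ∫⁻ v : FF (m + 1), H (‖x‖ * a) (√(a ^ 2 + ‖v‖ ^ 2))
      = (volume : Measure (FF (m + 1))).toSphere univ *
        ∫⁻ ρ in Ioi (0 : ℝ), ENNReal.ofReal (ρ ^ m) * H (‖x‖ * a) (√(a ^ 2 + ρ ^ 2)) := by
    intro a
    have mf : Measurable (fun ρ : ℝ => H (‖x‖ * a) (√(a ^ 2 + ρ ^ 2))) := by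
      apply mH.comp (f := fun ρ : ℝ => (‖x‖ * a, √(a ^ 2 + ρ ^ 2)))
      apply Measurable.prodMk measurable_const
      apply Real.continuous_sqrt.measurable.comp
      fun_prop
    have := lintegral_norm_radial (F := FF (m + 1)) mf
    rw [hFF, Nat.add_sub_cancel] at this
    exact this
  have mg : Measurable (fun p : ℝ × ℝ =>
      ENNReal.ofReal (p.2 ^ m) * H (‖x‖ * p.1) (√(p.1 ^ 2 + p.2 ^ 2))) := by
    apply Measurable.mul
    · exact (measurable_snd.pow_const _).ennreal_ofReal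
    · apply mH.comp (f := fun p : ℝ × ℝ => (‖x‖ * p.1, √(p.1 ^ 2 + p.2 ^ 2)))
      apply Measurable.prodMk
      · fun_prop
      · apply Real.continuous_sqrt.measurable.comp
        fun_prop
  simp_rw [e1]
  rw [lintegral_const_mul]
  swap
  · exact Measurable.lintegral_prod_right' (f := fun p : ℝ × ℝ =>
      ENNReal.ofReal (p.2 ^ m) * H (‖x‖ * p.1) (√(p.1 ^ 2 + p.2 ^ 2))) mg
  congr 1
  rw [lintegral_halfplane (g := fun a ρ => ENNReal.ofReal (ρ ^ m) * H (‖x‖ * a) (√(a ^ 2 + ρ ^ 2))) mg]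
  have e2 : ∀ R ∈ Ioi (0 : ℝ), (∫⁻ θ in Ioo (0 : ℝ) Real.pi,
        ENNReal.ofReal R * (ENNReal.ofReal ((R * Real.sin θ) ^ m) *
          H (‖x‖ * (R * Real.cos θ)) (√((R * Real.cos θ) ^ 2 + (R * Real.sin θ) ^ 2))))
      = (Iio (1 : ℝ)).indicator (fun R => ENNReal.ofReal (R ^ (m + 1))) R *
        ∫⁻ θ in Ioo (0 : ℝ) Real.pi, ENNReal.ofReal (Real.sin θ ^ m) * h (‖x‖ * Real.cos θ) := by
    intro R hR
    have hR0 : (0 : ℝ) < R := hR
    rw [← lintegral_const_mul]
    · refine setLIntegral_congr_fun measurableSet_Ioo fun θ hθ => ?_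
      have hs : √((R * Real.cos θ) ^ 2 + (R * Real.sin θ) ^ 2) = R := by
        rw [show (R * Real.cos θ) ^ 2 + (R * Real.sin θ) ^ 2 = R ^ 2 by
          nlinarith [Real.sin_sq_add_cos_sq θ]]
        exact Real.sqrt_sq hR0.le
      rw [hs]
      simp only [hH]
      by_cases h1 : R < 1
      · rw [indicator_of_mem (show R ∈ Iio 1 from h1), indicator_of_mem (show R ∈ Iio 1 from h1)]
        rw [show ‖x‖ * (R * Real.cos θ) / R = ‖x‖ * Real.cos θ by field_simp]
        rw [← mul_assoc, ← mul_assoc, ← ENNReal.ofReal_mul hR0.le, ← ENNReal.ofReal_mul (by positivity)]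
        congr 2
        ring
      · rw [indicator_of_notMem (show R ∉ Iio 1 from h1), indicator_of_notMem (show R ∉ Iio 1 from h1)]
        simp
    · apply Measurable.mul
      · exact (Real.measurable_sin.pow_const _).ennreal_ofReal
      · apply hh.comp
        exact Real.measurable_cos.const_mul _
  rw [setLIntegral_congr_fun measurableSet_Ioi e2, lintegral_mul_const]
  · congr 1
    rw [← lintegral_indicator measurableSet_Ioi, ← lintegral_indicator measurableSet_Ioo]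
    refine lintegral_congr fun R => ?_
    rw [indicator_indicator]
    rfl
  · apply Measurable.indicator _ measurableSet_Iio
    exact (measurable_id.pow_const _).ennreal_ofReal


end iso

end

end Pool.Agent.Helper843.Law
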