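import Mathlib
import Pool.Agent.Helper843.Haar
import Pool.Agent.Helper843.Law

set_option autoImplicit false

open MeasureTheory Set
open scoped MeasureTheory ENNReal NNReal

namespace Pool.Agent.Helper843.SphA

abbrev E := EuclideanSpace ℝ (Fin 3)

/-- the unit sphere -/
def Sp : Set E := {x | ‖x‖ = 1}

lemma isClosed_Sp : IsClosed Sp := isClosed_eq continuous_norm continuous_const

/-- spherical coordinates -/
noncomputable def Phi (p : Fin 2 → ℝ) : E :=
  !₂[Real.sin (p 0) * Real.cos (p 1), Real.sin (p 0) * Real.sin (p 1), Real.cos (p 0)]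

lemma Phi_lip : LipschitzWith 4 Phi := by
  apply LipschitzWith.of_dist_le_mul
  intro p q
  have h0 : |p 0 - q 0| ≤ dist p q := by
    have := dist_le_pi_dist p q 0
    rwa [Real.dist_eq] at this
  have h1 : |p 1 - q 1| ≤ dist p q := by
    have := dist_le_pi_dist p q 1
    rwa [Real.dist_eq] at this
  set d := dist p q with hd
  have hd0 : 0 ≤ d := dist_nonneg
  have hs0 := Real.abs_sin_sub_sin_le (p 0) (q 0)
  have hs1 := Real.abs_sin_sub_sin_le (p 1) (q 1)
  have hc0 := Real.abs_cos_sub_cos_le (p 0) (q 0)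
  have hc1 := Real.abs_cos_sub_cos_le (p 1) (q 1)
  have prod : ∀ a a' b b' : ℝ, |a| ≤ 1 → |b'| ≤ 1 → |a - a'| ≤ d → |b - b'| ≤ d →
      |a * b - a' * b'| ≤ 2 * d := by
    intro a a' b b' ha hb' h1 h2
    have e : a * b - a' * b' = a * (b - b') + (a - a') * b' := by ring
    rw [e]
    refine (abs_add_le _ _).trans ?_
    rw [abs_mul, abs_mul]
    have i1 : |a| * |b - b'| ≤ 1 * d := mul_le_mul ha h2 (abs_nonneg _) zero_le_one
    have i2 : |a - a'| * |b'| ≤ d * 1 := mul_le_mul h1 hb' (abs_nonneg _) hd0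
    linarith
  have k0 := prod (Real.sin (p 0)) (Real.sin (q 0)) (Real.cos (p 1)) (Real.cos (q 1))
    (Real.abs_sin_le_one _) (Real.abs_cos_le_one _) (hs0.trans h0) (hc1.trans h1)
  have k1 := prod (Real.sin (p 0)) (Real.sin (q 0)) (Real.sin (p 1)) (Real.sin (q 1))
    (Real.abs_sin_le_one _) (Real.abs_sin_le_one _) (hs0.trans h0) (hs1.trans h1)
  have k2 : |Real.cos (p 0) - Real.cos (q 0)| ≤ d := hc0.trans h0
  rw [EuclideanSpace.dist_eq, Fin.sum_univ_three]
  simp only [Phi, Real.dist_eq, sq_abs]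
  show Real.sqrt _ ≤ (4 : ℝ) * d
  apply Real.sqrt_le_iff.2 ⟨by positivity, ?_⟩
  have j0 := sq_le_sq' (neg_le_of_abs_le k0) (le_of_abs_le k0)
  have j1 := sq_le_sq' (neg_le_of_abs_le k1) (le_of_abs_le k1)
  have j2 := sq_le_sq' (neg_le_of_abs_le k2) (le_of_abs_le k2)
  simp only [Matrix.cons_val_zero, Matrix.cons_val_one, Matrix.cons_val]
  nlinarith

lemma Sp_subset : Sp ⊆ Phi '' (Set.Icc (fun _ => -4) (fun _ => 4)) := by
  intro x hx
  have h1 : x 0 ^ 2 + x 1 ^ 2 + x 2 ^ 2 = 1 := by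
    have h : ‖x‖ ^ 2 = 1 := by rw [show ‖x‖ = 1 from hx]; norm_num
    rw [EuclideanSpace.norm_sq_eq, Fin.sum_univ_three] at h
    simpa using h
  set θ := Real.arccos (x 2) with hθ
  have hc : Real.cos θ = x 2 := Real.cos_arccos (by nlinarith [sq_nonneg (x 0), sq_nonneg (x 1)]) (by nlinarith [sq_nonneg (x 0), sq_nonneg (x 1)])
  set ζ : ℂ := ⟨x 0, x 1⟩ with hζ
  have hs : Real.sin θ = ‖ζ‖ := by
    rw [hθ, Real.sin_arccos, Complex.norm_eq_sqrt_sq_add_sq]
    congr 1
    simp only [hζ]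
    linarith
  refine ⟨fun i => if i = 0 then θ else ζ.arg, ?_, ?_⟩
  · constructor
    · intro i
      show (-4 : ℝ) ≤ if i = 0 then θ else ζ.arg
      split_ifs
      · linarith [Real.arccos_nonneg (x 2)]
      · linarith [Complex.neg_pi_lt_arg ζ, Real.pi_lt_four]
    · intro i
      show (if i = 0 then θ else ζ.arg) ≤ (4 : ℝ)
      split_ifs
      · linarith [Real.arccos_le_pi (x 2), Real.pi_lt_four]
      · linarith [Complex.arg_le_pi ζ, Real.pi_lt_four]
  · ext i
    fin_cases i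
    · simp only [Phi]
      simp
      rw [hs, Complex.norm_mul_cos_arg]
    · simp only [Phi]
      simp
      rw [hs, Complex.norm_mul_sin_arg]
    · simp only [Phi]
      simp
      exact hc

lemma muSp_lt_top : μH[2] Sp < ⊤ := by
  have h1 := Phi_lip.hausdorffMeasure_image_le (d := 2) (by norm_num) (Set.Icc (fun _ => -4) (fun _ => 4))
  have h2 : μH[2] (Set.Icc (fun _ : Fin 2 => (-4 : ℝ)) (fun _ => 4)) < ⊤ := by
    have : (μH[2] : Measure (Fin 2 → ℝ)) = volume := by
      have := hausdorffMeasure_pi_real (ι := Fin 2)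
      simpa using this
    rw [this]
    exact isCompact_Icc.measure_lt_top
  refine lt_of_le_of_lt ((measure_mono Sp_subset).trans h1) ?_
  refine ENNReal.mul_lt_top ?_ h2
  exact ENNReal.rpow_lt_top_of_nonneg (by norm_num) (by simp)

lemma muSp_pos : 0 < μH[2] Sp := by
  set P : E → (Fin 2 → ℝ) := fun x i => x (Fin.castSucc i) with hP
  have hL : LipschitzWith 1 P := by
    apply LipschitzWith.of_dist_le_mul
    intro x y
    rw [NNReal.coe_one, one_mul]
    refine (dist_pi_le_iff dist_nonneg).2 fun i => ?_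
    have := PiLp.norm_apply_le (x - y) (Fin.castSucc i)
    simpa [dist_eq_norm, hP] using this
  have h1 := hL.hausdorffMeasure_image_le (d := 2) (by norm_num) Sp
  rw [ENNReal.coe_one, ENNReal.one_rpow, one_mul] at h1
  refine lt_of_lt_of_le ?_ h1
  have h2 : Set.Icc (fun _ : Fin 2 => (-1 / 2 : ℝ)) (fun _ => 1 / 2) ⊆ P '' Sp := by
    intro p hp
    have a0 := hp.1 0
    have a1 := hp.1 1
    have b0 := hp.2 0
    have b1 := hp.2 1
    simp only at a0 a1 b0 b1
    have hpos : 0 ≤ 1 - p 0 ^ 2 - p 1 ^ 2 := by nlinarith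
    refine ⟨!₂[p 0, p 1, Real.sqrt (1 - p 0 ^ 2 - p 1 ^ 2)], ?_, ?_⟩
    · show ‖_‖ = 1
      rw [EuclideanSpace.norm_eq, Fin.sum_univ_three]
      simp only [Matrix.cons_val_zero, Matrix.cons_val_one, Matrix.cons_val, Real.norm_eq_abs, sq_abs]
      rw [Real.sq_sqrt hpos]
      rw [show p 0 ^ 2 + p 1 ^ 2 + (1 - p 0 ^ 2 - p 1 ^ 2) = 1 by ring, Real.sqrt_one]
    · funext i
      fin_cases i <;> simp [hP]
  refine lt_of_lt_of_le ?_ (measure_mono h2)
  have : (μH[2] : Measure (Fin 2 → ℝ)) = volume := by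
    have := hausdorffMeasure_pi_real (ι := Fin 2)
    simpa using this
  rw [this, Real.volume_Icc_pi]
  norm_num

end Pool.Agent.Helper843.SphA
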