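import Mathlib
import Pool.Agent.Helper843.SphA
import Pool.Agent.Helper843.SphB
import Pool.Agent.Helper843.Law
import Pool.Agent.Helper843.Kiss

set_option autoImplicit false

open MeasureTheory Set
open scoped MeasureTheory ENNReal NNReal

namespace Pool.Agent.Helper843.SphC

open Pool.Agent.Helper843.SphA (Sp muSp_lt_top muSp_pos)

abbrev E := EuclideanSpace ℝ (Fin 3)

lemma finrankE : Module.finrank ℝ E = 2 + 1 := by simp

lemma cos_lt_iff (u z : E) (hu : ‖u‖ = 1) (a : ℝ) (ha0 : 0 ≤ a) (ha : a ≤ Real.pi) :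
    InnerProductGeometry.angle u z < a ↔ Real.cos a < inner ℝ u z / ‖z‖ := by
  have h1 : Real.cos (InnerProductGeometry.angle u z) = inner ℝ u z / ‖z‖ := by
    rw [InnerProductGeometry.cos_angle, hu, one_mul]
  rw [← h1]
  constructor
  · intro h
    exact Real.strictAntiOn_cos ⟨InnerProductGeometry.angle_nonneg _ _, InnerProductGeometry.angle_le_pi _ _⟩
      ⟨ha0, ha⟩ h
  · intro h
    by_contra hc
    push Not at hc
    have := Real.strictAntiOn_cos.antitoneOn ⟨ha0, ha⟩
      ⟨InnerProductGeometry.angle_nonneg u z, InnerProductGeometry.angle_le_pi u z⟩ hc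
    linarith

lemma lint_sin (b : ℝ) (hb0 : 0 ≤ b) (hb : b ≤ Real.pi) :
    ∫⁻ θ in Ioo (0 : ℝ) b, ENNReal.ofReal (Real.sin θ) = ENNReal.ofReal (1 - Real.cos b) := by
  have h1 : ∫ θ in (0 : ℝ)..b, Real.sin θ = 1 - Real.cos b := by
    rw [integral_sin, Real.cos_zero]
  rw [intervalIntegral.integral_of_le hb0] at h1
  rw [← h1, ← restrict_Ioo_eq_restrict_Ioc]
  refine (ofReal_integral_eq_lintegral_ofReal ?_ ?_).symm
  · have : IntegrableOn Real.sin (Icc 0 b) := Real.continuous_sin.integrableOn_Icc
    exact this.mono_set Ioo_subset_Icc_self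
  · rw [Filter.EventuallyLE, ae_restrict_iff' measurableSet_Ioo]
    refine Filter.Eventually.of_forall fun θ hθ => ?_
    exact Real.sin_nonneg_of_nonneg_of_le_pi hθ.1.le (hθ.2.le.trans hb)

lemma cap_volume (u : E) (hu : ‖u‖ = 1) :
    2 * volume ({z : E | InnerProductGeometry.angle u z < Real.pi / 6} ∩ Metric.ball (0 : E) 1)
      = ENNReal.ofReal (1 - Real.sqrt 3 / 2) * volume (Metric.ball (0 : E) 1) := by
  have hV : Module.finrank ℝ E = 1 + 2 := by simp
  set h : ℝ → ℝ≥0∞ := (Ioi (Real.sqrt 3 / 2)).indicator (fun _ => 1) with hh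
  have hm : Measurable h := measurable_const.indicator measurableSet_Ioi
  have l1 := Law.law_aux hV u hm
  have l2 := Law.law_aux hV u (h := fun _ => 1) measurable_const
  have e1 : ∫⁻ z in Metric.ball (0 : E) 1, h (inner ℝ u z / ‖z‖)
      = volume ({z : E | InnerProductGeometry.angle u z < Real.pi / 6} ∩ Metric.ball (0 : E) 1) := by
    have e0 : ∀ z : E, h (inner ℝ u z / ‖z‖)
        = ({z : E | InnerProductGeometry.angle u z < Real.pi / 6}).indicator (fun _ => 1) z := by
      intro z
      have := cos_lt_iff u z hu (Real.pi / 6) (by positivity) (by linarith [Real.pi_pos])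
      rw [Real.cos_pi_div_six] at this
      by_cases hz : InnerProductGeometry.angle u z < Real.pi / 6
      · rw [indicator_of_mem (show z ∈ {z : E | InnerProductGeometry.angle u z < Real.pi / 6} from hz), hh,
          indicator_of_mem (show inner ℝ u z / ‖z‖ ∈ Ioi (Real.sqrt 3 / 2) from this.1 hz)]
      · rw [indicator_of_notMem (show z ∉ {z : E | InnerProductGeometry.angle u z < Real.pi / 6} from hz), hh,
          indicator_of_notMem (show inner ℝ u z / ‖z‖ ∉ Ioi (Real.sqrt 3 / 2) from fun h => hz (this.2 h))]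
    simp_rw [e0]
    have hms : MeasurableSet {z : E | InnerProductGeometry.angle u z < Real.pi / 6} := by
      have : {z : E | InnerProductGeometry.angle u z < Real.pi / 6}
          = {z : E | Real.sqrt 3 / 2 < inner ℝ u z / ‖z‖} := by
        ext z
        have := cos_lt_iff u z hu (Real.pi / 6) (by positivity) (by linarith [Real.pi_pos])
        rw [Real.cos_pi_div_six] at this
        exact this
      rw [this]
      refine measurableSet_lt measurable_const ?_
      exact Measurable.div (by fun_prop) measurable_norm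
    have h1 := lintegral_indicator_const (μ := (volume : Measure E).restrict (Metric.ball (0 : E) 1)) hms (1 : ℝ≥0∞)
    rw [h1, one_mul, Measure.restrict_apply hms]
  have e2 : ∫⁻ θ in Ioo (0 : ℝ) Real.pi, ENNReal.ofReal (Real.sin θ ^ 1) * h (‖u‖ * Real.cos θ)
      = ENNReal.ofReal (1 - Real.sqrt 3 / 2) := by
    have e3 : ∀ θ ∈ Ioo (0 : ℝ) Real.pi, ENNReal.ofReal (Real.sin θ ^ 1) * h (‖u‖ * Real.cos θ)
        = (Ioo (0 : ℝ) (Real.pi / 6)).indicator (fun θ => ENNReal.ofReal (Real.sin θ)) θ := by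
      intro θ hθ
      rw [hu, one_mul, pow_one]
      by_cases hc : θ < Real.pi / 6
      · rw [indicator_of_mem (show θ ∈ Ioo (0 : ℝ) (Real.pi / 6) from ⟨hθ.1, hc⟩), hh, indicator_of_mem, mul_one]
        show Real.sqrt 3 / 2 < Real.cos θ
        rw [← Real.cos_pi_div_six]
        exact Real.strictAntiOn_cos ⟨hθ.1.le, hθ.2.le⟩ ⟨by positivity, by linarith [Real.pi_pos]⟩ hc
      · rw [indicator_of_notMem (show θ ∉ Ioo (0 : ℝ) (Real.pi / 6) from fun h => hc h.2), hh,
          indicator_of_notMem, mul_zero]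
        show ¬ (Real.sqrt 3 / 2 < Real.cos θ)
        rw [← Real.cos_pi_div_six, not_lt]
        exact Real.strictAntiOn_cos.antitoneOn ⟨by positivity, by linarith [Real.pi_pos]⟩ ⟨hθ.1.le, hθ.2.le⟩ (not_lt.1 hc)
    rw [setLIntegral_congr_fun measurableSet_Ioo e3, lintegral_indicator measurableSet_Ioo,
      Measure.restrict_restrict measurableSet_Ioo]
    have : Ioo (0 : ℝ) (Real.pi / 6) ∩ Ioo 0 Real.pi = Ioo 0 (Real.pi / 6) := by
      apply inter_eq_left.2
      exact Ioo_subset_Ioo_right (by linarith [Real.pi_pos])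
    rw [this, lint_sin _ (by positivity) (by linarith [Real.pi_pos]), Real.cos_pi_div_six]
  have e3 : ∫⁻ θ in Ioo (0 : ℝ) Real.pi, ENNReal.ofReal (Real.sin θ ^ 1) * 1 = 2 := by
    simp only [pow_one, mul_one]
    rw [lint_sin _ Real.pi_pos.le le_rfl, Real.cos_pi]
    norm_num
  rw [e1, e2] at l1
  rw [e3] at l2
  simp only [lintegral_const, Measure.restrict_apply MeasurableSet.univ, univ_inter, one_mul] at l2
  rw [l1, l2]
  ring

lemma meas_cone (u : E) (hu : ‖u‖ = 1) (a : ℝ) (ha0 : 0 ≤ a) (ha : a ≤ Real.pi) :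
    MeasurableSet {z : E | InnerProductGeometry.angle u z < a} := by
  have : {z : E | InnerProductGeometry.angle u z < a}
      = {z : E | Real.cos a < inner ℝ u z / ‖z‖} := by
    ext z
    exact cos_lt_iff u z hu a ha0 ha
  rw [this]
  refine measurableSet_lt measurable_const ?_
  exact Measurable.div (by fun_prop) measurable_norm

/-- area of the small caps -/
lemma cap_area (u : E) (hu : ‖u‖ = 1) :
    (μH[2] {x : E | ‖x‖ = 1 ∧ InnerProductGeometry.angle u x < Real.pi / 6}).toReal
      = (1 - Real.sqrt 3 / 2) / 2 * (μH[2] Sp).toReal := by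
  have h1 := SphB.cone_ratio finrankE 2 Sp rfl muSp_lt_top
    {z : E | InnerProductGeometry.angle u z < Real.pi / 6}
    (meas_cone u hu _ (by positivity) (by linarith [Real.pi_pos]))
    (fun r z hr => by
      show InnerProductGeometry.angle u (r • z) < Real.pi / 6 ↔ InnerProductGeometry.angle u z < Real.pi / 6
      rw [InnerProductGeometry.angle_smul_right_of_pos _ _ hr]) u hu
  have h2 := cap_volume u hu
  have hset : {z : E | InnerProductGeometry.angle u z < Real.pi / 6} ∩ Sp
      = {x : E | ‖x‖ = 1 ∧ InnerProductGeometry.angle u x < Real.pi / 6} := by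
    ext x
    exact and_comm
  rw [hset] at h1
  have hv0 : volume (Metric.ball (0 : E) 1) ≠ 0 := (Metric.measure_ball_pos volume (0 : E) one_pos).ne'
  have hv1 : volume (Metric.ball (0 : E) 1) ≠ ⊤ := measure_ball_lt_top.ne
  have h3 : 2 * μH[2] {x : E | ‖x‖ = 1 ∧ InnerProductGeometry.angle u x < Real.pi / 6}
      = ENNReal.ofReal (1 - Real.sqrt 3 / 2) * μH[2] Sp := by
    apply (ENNReal.mul_left_inj hv0 hv1).1
    calc _ = 2 * (μH[2] {x : E | ‖x‖ = 1 ∧ InnerProductGeometry.angle u x < Real.pi / 6} * volume (Metric.ball (0 : E) 1)) := by ring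
      _ = (2 * volume ({z : E | InnerProductGeometry.angle u z < Real.pi / 6} ∩ Metric.ball (0 : E) 1)) * μH[2] Sp := by
          rw [h1]; ring
      _ = _ := by rw [h2]; ring
  have h4 := congrArg ENNReal.toReal h3
  rw [ENNReal.toReal_mul, ENNReal.toReal_mul, ENNReal.toReal_ofReal] at h4
  · simp only [ENNReal.toReal_ofNat] at h4
    linarith
  · have : Real.sqrt 3 ≤ 2 := by
      rw [Real.sqrt_le_left (by norm_num)]; norm_num
    linarith

end Pool.Agent.Helper843.SphC
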